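import Pool.Agent.K7.H41.FL.Mod

/-!
# Free modules: endomorphisms that vanish on all but finitely many elements of a basis
-/

set_option autoImplicit false

namespace Pool.Agent.K7.H41.FL

theorem locSplit_of_basis {R M ι : Type} [Ring R] [AddCommGroup M] [Module R M]
    (b : Module.Basis ι R M) (X : Set (Module.End R M)) (hX : X.Finite)
    (h : ∀ t ∈ X, {i | t (b i) ≠ 0}.Finite) : LocSplit X := by
  classical
  intro A hA
  -- the basis vectors which are moved
  let F0 : Set ι := ⋃ t ∈ X, {i | t (b i) ≠ 0}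
  have hF0 : F0.Finite := hX.biUnion h
  let F : Set ι := (F0 ∪ ⋃ a ∈ A, ((b.repr a).support : Set ι)) ∪
    ⋃ t ∈ X, ⋃ i ∈ F0, ((b.repr (t (b i))).support : Set ι)
  have hF : F.Finite := (hF0.union (hA.biUnion fun a _ => (b.repr a).support.finite_toSet)).union
    (hX.biUnion fun t _ => hF0.biUnion fun i _ => (b.repr (t (b i))).support.finite_toSet)
  haveI : Finite F := hF
  let W : Submodule R M := (Finsupp.supported R R F).comap b.repr.toLinearMap
  let Y : Submodule R M := (Finsupp.supported R R Fᶜ).comap b.repr.toLinearMap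
  have hWm : ∀ v, v ∈ W ↔ ((b.repr v).support : Set ι) ⊆ F := fun v => Iff.rfl
  have hYm : ∀ v, v ∈ Y ↔ ((b.repr v).support : Set ι) ⊆ Fᶜ := fun v => Iff.rfl
  have htb : ∀ t ∈ X, ∀ i, t (b i) ∈ W := by
    intro t ht i
    by_cases hi : t (b i) = 0
    · rw [hi]
      exact W.zero_mem
    · rw [hWm]
      intro j hj
      refine Or.inr (Set.mem_biUnion ht (Set.mem_biUnion (show i ∈ F0 from ?_) hj))
      exact Set.mem_biUnion ht hi
  have htW : ∀ t ∈ X, ∀ v, t v ∈ W := by
    intro t ht v
    rw [← b.linearCombination_repr v, Finsupp.linearCombination_apply, Finsupp.sum, map_sum]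
    refine W.sum_mem fun i _ => ?_
    rw [map_smul]
    exact W.smul_mem _ (htb t ht i)
  let e1 : W ≃ₗ[R] Finsupp.supported R R F :=
    b.repr.submoduleMap W |>.trans (LinearEquiv.ofEq _ _ (by
      ext x
      simp only [W, Submodule.mem_map, Submodule.mem_comap]
      constructor
      · rintro ⟨y, hy, rfl⟩
        exact hy
      · intro hx
        exact ⟨b.repr.symm x, by simpa using hx, by simp⟩))
  let e2 : W ≃ₗ[R] (F →₀ R) := e1.trans (Finsupp.supportedEquivFinsupp F)
  refine ⟨W, Y, ⟨?_, ?_⟩, ?_, ?_, Module.Projective.of_equiv e2.symm, fun t ht =>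
    ⟨fun w _ => htW t ht w, ?_⟩⟩
  · rw [Submodule.disjoint_def]
    intro v hv1 hv2
    have h1 := Finsupp.disjoint_supported_supported (M := R) (R := R)
      (disjoint_compl_right : Disjoint F Fᶜ)
    rw [Submodule.disjoint_def] at h1
    have h2 := h1 (b.repr v) hv1 hv2
    exact b.repr.map_eq_zero_iff.1 h2
  · rw [codisjoint_iff, eq_top_iff]
    intro v _
    have h1 := Finsupp.codisjoint_supported_supported (M := R) (R := R)
      (isCompl_compl.codisjoint : Codisjoint F Fᶜ)
    rw [codisjoint_iff] at h1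
    have h2 : b.repr v ∈ Finsupp.supported R R F ⊔ Finsupp.supported R R Fᶜ := by
      rw [h1]
      trivial
    obtain ⟨x, hx, y, hy, hxy⟩ := Submodule.mem_sup.1 h2
    rw [Submodule.mem_sup]
    refine ⟨b.repr.symm x, ?_, b.repr.symm y, ?_, ?_⟩
    · change b.repr (b.repr.symm x) ∈ Finsupp.supported R R F
      rwa [LinearEquiv.apply_symm_apply]
    · change b.repr (b.repr.symm y) ∈ Finsupp.supported R R Fᶜ
      rwa [LinearEquiv.apply_symm_apply]
    · rw [← map_add, hxy, LinearEquiv.symm_apply_apply]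
  · intro a ha
    change a ∈ W
    rw [hWm]
    intro j hj
    exact Or.inl (Or.inr (Set.mem_biUnion ha hj))
  · rw [← Module.Finite.iff_fg]
    exact Module.Finite.equiv e2.symm
  · intro y hy
    rw [hYm] at hy
    rw [← b.linearCombination_repr y, Finsupp.linearCombination_apply, Finsupp.sum, map_sum]
    refine Finset.sum_eq_zero fun i hi => ?_
    rw [map_smul]
    have h1 : t (b i) = 0 := by
      by_contra h2
      exact hy hi (Or.inl (Or.inl (Set.mem_biUnion ht h2)))
    rw [h1, smul_zero]

end Pool.Agent.K7.H41.FL
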