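import Pool.Agent.R779.FJ.Col

/-!
# Finitary groups of automorphisms of modules in classes of groups

The trick: if `p` is an automorphism of a module `M` of any rank and `x`, `p x p⁻¹` are supported on
a finitely generated summand `T` (and `x` on a smaller one) then the conjugation `x ↦ p x p⁻¹` is
realized by an automorphism of `T × T`.
-/

set_option autoImplicit false

namespace Pool.Agent.K7.H41.FL

open Pool.Agent.Y110.FJ

section defs

variable {R M : Type} [Ring R] [AddCommGroup M] [Module R M]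

/-- the automorphism `x` maps `W` into itself and fixes all elements of `Y` -/
def SupportedOn (W Y : Submodule R M) (x : M ≃ₗ[R] M) : Prop :=
  (∀ w ∈ W, x w ∈ W) ∧ ∀ y ∈ Y, x y = y

/-- The set `X` of automorphisms of the module `M` is finitary with respect to the class `C` of
groups: for each finite subset `A` of `M` there is a decomposition `M = W ⊕ Y` such that `W` is
finitely generated and contains `A`, the elements of `X` map `W` into itself and fix all elements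
of `Y`, and the automorphism group of `W × W` is in `C`. -/
def Finitary (C : ∀ (G : Type) [Group G], Prop) (X : Set (M ≃ₗ[R] M)) : Prop :=
  ∀ A : Set M, A.Finite → ∃ W Y : Submodule R M, IsCompl W Y ∧ A ⊆ W ∧ W.FG ∧
    C ((W × W) ≃ₗ[R] (W × W)) ∧ ∀ x ∈ X, SupportedOn W Y x

end defs

section trick

variable {R M : Type} [Ring R] [AddCommGroup M] [Module R M]

theorem exists_proj {W Y : Submodule R M} (h : IsCompl W Y) :
    ∃ a : M →ₗ[R] M, (∀ v, a v ∈ W) ∧ (∀ v, v - a v ∈ Y) ∧ (∀ w ∈ W, a w = w) ∧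
      ∀ y ∈ Y, a y = 0 := by
  refine ⟨W.subtype ∘ₗ Submodule.projectionOnto W Y h, fun v => ?_, fun v => ?_,
    fun w hw => ?_, fun y hy => ?_⟩
  · exact (Submodule.projectionOnto W Y h v).2
  · have h1 : Submodule.projectionOnto W Y h
        (v - (Submodule.projectionOnto W Y h v : M)) = 0 := by
      rw [map_sub, Submodule.projectionOnto_apply_left, sub_self]
    have h2 := (LinearMap.mem_ker).2 h1
    rwa [Submodule.ker_projectionOnto] at h2
  · have h1 := Submodule.projectionOnto_apply_left h ⟨w, hw⟩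
    simp only [LinearMap.comp_apply, Submodule.subtype_apply]
    rw [h1]
  · have h1 : Submodule.projectionOnto W Y h y = 0 := by
      rw [← LinearMap.mem_ker, Submodule.ker_projectionOnto]
      exact hy
    simp only [LinearMap.comp_apply, Submodule.subtype_apply]
    rw [h1]
    rfl

/-- automorphisms that preserve `T` in both directions and fix `Z` -/
structure Good (T Z : Submodule R M) (x : M ≃ₗ[R] M) : Prop where
  fwd : ∀ v ∈ T, x v ∈ T
  bwd : ∀ v ∈ T, x.symm v ∈ T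
  fixes : ∀ v ∈ Z, x v = v

theorem good_of_supported {T Z : Submodule R M} (h : IsCompl T Z) {x : M ≃ₗ[R] M}
    (hx : SupportedOn T Z x) : Good T Z x := by
  refine ⟨hx.1, fun w hw => ?_, hx.2⟩
  obtain ⟨a, ha1, ha2, -, -⟩ := exists_proj h
  set u := x.symm w with hu
  have h1 : x u = w := by rw [hu]; simp
  have h2 : x (a u) + (u - a u) = w := by
    have h3 : x (u - a u) = u - a u := hx.2 _ (ha2 u)
    rw [← h3, ← map_add, add_sub_cancel, h1]
  have h4 : u - a u ∈ T := by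
    have h5 : u - a u = w - x (a u) := by rw [← h2]; abel
    rw [h5]
    exact T.sub_mem hw (hx.1 _ (ha1 u))
  have h6 : u - a u = 0 := by
    have := h.disjoint
    rw [Submodule.disjoint_def] at this
    exact this _ h4 (ha2 u)
  rw [sub_eq_zero.1 h6]
  exact ha1 u

theorem Good.one (T Z : Submodule R M) : Good T Z 1 :=
  ⟨fun _ h => h, fun _ h => h, fun _ _ => rfl⟩

theorem Good.mul {T Z : Submodule R M} {x y : M ≃ₗ[R] M} (hx : Good T Z x) (hy : Good T Z y) :
    Good T Z (x * y) := by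
  refine ⟨fun v hv => hx.fwd _ (hy.fwd v hv), fun v hv => ?_, fun v hv => ?_⟩
  · exact hy.bwd _ (hx.bwd v hv)
  · change x (y v) = v
    rw [hy.fixes v hv, hx.fixes v hv]

theorem Good.inv' {T Z : Submodule R M} {x : M ≃ₗ[R] M} (hx : Good T Z x) :
    Good T Z x⁻¹ := by
  refine ⟨fun v hv => hx.bwd v hv, fun v hv => hx.fwd v hv, fun v hv => ?_⟩
  change x.symm v = v
  rw [LinearEquiv.symm_apply_eq, hx.fixes v hv]

/-- the automorphism of `T × T` given by `x` on the first factor -/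
def fst (T Z : Submodule R M) (x : M ≃ₗ[R] M) (hx : Good T Z x) : (T × T) ≃ₗ[R] (T × T) :=
  LinearEquiv.prodCongr
    (LinearEquiv.ofLinearMap (x.toLinearMap.restrict hx.fwd) (x.symm.toLinearMap.restrict hx.bwd)
      (by ext v; simp) (by ext v; simp))
    (LinearEquiv.refl R T)

theorem fst_apply (T Z : Submodule R M) (x : M ≃ₗ[R] M) (hx : Good T Z x) (v : T × T) :
    fst T Z x hx v = (⟨x v.1, hx.fwd _ v.1.2⟩, v.2) := rfl

/-- the trick -/
theorem trick {W Y T : Submodule R M} (hWY : IsCompl W Y) (p : M ≃ₗ[R] M) (h1 : W ≤ T)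
    (h2 : ∀ w ∈ W, p w ∈ T) :
    ∃ q : (T × T) ≃ₗ[R] (T × T), ∀ x y : M ≃ₗ[R] M, SupportedOn W Y x →
      y = p * x * p⁻¹ → ∀ (a : ∀ v ∈ T, x v ∈ T) (b : ∀ v ∈ T, y v ∈ T) (v : T × T),
      q (⟨x v.1, a _ v.1.2⟩, v.2) = (⟨y (q v).1, b _ (q v).1.2⟩, (q v).2) := by
  obtain ⟨a, ha1, ha2, ha3, ha4⟩ := exists_proj hWY
  have haa : ∀ v, a (a v) = a v := fun v => ha3 _ (ha1 v)
  let m : M × M →ₗ[R] M := (LinearMap.fst R M M - a ∘ₗ LinearMap.fst R M M) +
    a ∘ₗ LinearMap.snd R M M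
  let F1 : M × M →ₗ[R] M := p.toLinearMap ∘ₗ a ∘ₗ LinearMap.fst R M M +
    (m - p.toLinearMap ∘ₗ a ∘ₗ p.symm.toLinearMap ∘ₗ m)
  let F2 : M × M →ₗ[R] M := a ∘ₗ p.symm.toLinearMap ∘ₗ m +
    (LinearMap.snd R M M - a ∘ₗ LinearMap.snd R M M)
  let n : M × M →ₗ[R] M := (LinearMap.fst R M M - p.toLinearMap ∘ₗ a ∘ₗ p.symm.toLinearMap ∘ₗ
    LinearMap.fst R M M) + p.toLinearMap ∘ₗ a ∘ₗ LinearMap.snd R M M
  let G1 : M × M →ₗ[R] M := a ∘ₗ p.symm.toLinearMap ∘ₗ LinearMap.fst R M M + (n - a ∘ₗ n)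
  let G2 : M × M →ₗ[R] M := a ∘ₗ n + (LinearMap.snd R M M - a ∘ₗ LinearMap.snd R M M)
  have hm : ∀ x, m x = (x.1 - a x.1) + a x.2 := fun _ => rfl
  have hn : ∀ x, n x = (x.1 - p (a (p.symm x.1))) + p (a x.2) := fun _ => rfl
  have hF1 : ∀ x, F1 x = p (a x.1) + (m x - p (a (p.symm (m x)))) := fun _ => rfl
  have hF2 : ∀ x, F2 x = a (p.symm (m x)) + (x.2 - a x.2) := fun _ => rfl
  have hG1 : ∀ x, G1 x = a (p.symm x.1) + (n x - a (n x)) := fun _ => rfl
  have hG2 : ∀ x, G2 x = a (n x) + (x.2 - a x.2) := fun _ => rfl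
  have hTa : ∀ v, a v ∈ T := fun v => h1 (ha1 v)
  have hTp : ∀ v, p (a v) ∈ T := fun v => h2 _ (ha1 v)
  have hmT : ∀ x : M × M, x.1 ∈ T → x.2 ∈ T → m x ∈ T := fun x hx1 _ =>
    T.add_mem (T.sub_mem hx1 (hTa _)) (hTa _)
  have hnT : ∀ x : M × M, x.1 ∈ T → x.2 ∈ T → n x ∈ T := fun x hx1 _ =>
    T.add_mem (T.sub_mem hx1 (hTp _)) (hTp _)
  have hF1T : ∀ x : M × M, x.1 ∈ T → x.2 ∈ T → F1 x ∈ T := fun x hx1 hx2 =>
    T.add_mem (hTp _) (T.sub_mem (hmT x hx1 hx2) (hTp _))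
  have hF2T : ∀ x : M × M, x.1 ∈ T → x.2 ∈ T → F2 x ∈ T := fun x _ hx2 =>
    T.add_mem (hTa _) (T.sub_mem hx2 (hTa _))
  have hG1T : ∀ x : M × M, x.1 ∈ T → x.2 ∈ T → G1 x ∈ T := fun x hx1 hx2 =>
    T.add_mem (hTa _) (T.sub_mem (hnT x hx1 hx2) (hTa _))
  have hG2T : ∀ x : M × M, x.1 ∈ T → x.2 ∈ T → G2 x ∈ T := fun x _ hx2 =>
    T.add_mem (hTa _) (T.sub_mem hx2 (hTa _))
  have mF : ∀ x, n (F1 x, F2 x) = m x := by
    intro x
    rw [hn]
    simp only [hF1, hF2, map_add, map_sub, haa, LinearEquiv.symm_apply_apply]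
    abel
  have am : ∀ x, a (m x) = a x.2 := by
    intro x
    simp only [hm, map_add, map_sub, haa]
    abel
  have nG : ∀ y, m (G1 y, G2 y) = n y := by
    intro y
    rw [hm]
    simp only [hG1, hG2, map_add, map_sub, haa]
    abel
  have an : ∀ y, a (p.symm (n y)) = a y.2 := by
    intro y
    simp only [hn, map_add, map_sub, haa, LinearEquiv.symm_apply_apply]
    abel
  have GF1 : ∀ x, G1 (F1 x, F2 x) = x.1 := by
    intro x
    rw [hG1, mF, am]
    simp only [hF1, map_add, map_sub, haa, LinearEquiv.symm_apply_apply, hm]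
    abel
  have GF2 : ∀ x, G2 (F1 x, F2 x) = x.2 := by
    intro x
    rw [hG2, mF, am]
    simp only [hF2, map_add, map_sub, haa]
    abel
  have FG1 : ∀ x, F1 (G1 x, G2 x) = x.1 := by
    intro x
    rw [hF1, nG, an]
    simp only [hG1, map_add, map_sub, haa, hn]
    abel
  have FG2 : ∀ x, F2 (G1 x, G2 x) = x.2 := by
    intro x
    rw [hF2, nG, an]
    simp only [hG2, map_add, map_sub, haa]
    abel
  let i : (T × T) →ₗ[R] M × M := T.subtype.prodMap T.subtype
  have hi : ∀ v : T × T, i v = ((v.1 : M), (v.2 : M)) := fun _ => rfl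
  let F' : (T × T) →ₗ[R] (T × T) :=
    ((F1 ∘ₗ i).codRestrict T (fun v => hF1T _ v.1.2 v.2.2)).prod
      ((F2 ∘ₗ i).codRestrict T (fun v => hF2T _ v.1.2 v.2.2))
  let G' : (T × T) →ₗ[R] (T × T) :=
    ((G1 ∘ₗ i).codRestrict T (fun v => hG1T _ v.1.2 v.2.2)).prod
      ((G2 ∘ₗ i).codRestrict T (fun v => hG2T _ v.1.2 v.2.2))
  have hF' : ∀ v, i (F' v) = (F1 (i v), F2 (i v)) := fun _ => rfl
  have hG' : ∀ v, i (G' v) = (G1 (i v), G2 (i v)) := fun _ => rfl
  have hii : Function.Injective i := by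
    intro v w h
    rw [hi, hi] at h
    have := Prod.mk.inj h
    exact Prod.ext (Subtype.ext this.1) (Subtype.ext this.2)
  have FG : ∀ v, F' (G' v) = v := by
    intro v
    apply hii
    rw [hF', hG', FG1, FG2]
  have GF : ∀ v, G' (F' v) = v := by
    intro v
    apply hii
    rw [hG', hF', GF1, GF2]
  refine ⟨LinearEquiv.ofLinearMap F' G' (LinearMap.ext FG) (LinearMap.ext GF), ?_⟩
  intro x y hx hy ax by' v
  have hxY : ∀ u, x (u - a u) = u - a u := fun u => hx.2 _ (ha2 u)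
  have hxa : ∀ u, a (x u) = x (a u) := by
    intro u
    have h3 : x u = x (a u) + (u - a u) := by
      rw [← hxY u, ← map_add, add_sub_cancel]
    rw [h3, map_add, ha3 _ (hx.1 _ (ha1 u)), ha4 _ (ha2 u), add_zero]
  have hxs : ∀ u, x u - x (a u) = u - a u := by
    intro u
    rw [← map_sub, hxY]
  apply hii
  change (F1 ((x (v.1 : M)), (v.2 : M)), F2 ((x (v.1 : M)), (v.2 : M))) =
    (y (F1 ((v.1 : M), (v.2 : M))), F2 ((v.1 : M), (v.2 : M)))
  have hmm : m ((x (v.1 : M)), (v.2 : M)) = m ((v.1 : M), (v.2 : M)) := by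
    rw [hm, hm]
    simp only [hxa, hxs]
  have hy' : ∀ u, y u = p (x (p.symm u)) := by
    intro u
    rw [hy]
    rfl
  refine Prod.ext ?_ ?_
  · change F1 ((x (v.1 : M)), (v.2 : M)) = y (F1 ((v.1 : M), (v.2 : M)))
    rw [hF1, hF1, hmm, hy']
    simp only [hxa, map_add, map_sub, LinearEquiv.symm_apply_apply]
    have h5 : x (p.symm (m ((v.1 : M), (v.2 : M)))) -
        x (a (p.symm (m ((v.1 : M), (v.2 : M))))) =
        p.symm (m ((v.1 : M), (v.2 : M))) - a (p.symm (m ((v.1 : M), (v.2 : M)))) := hxs _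
    have h6 := congrArg p h5
    simp only [map_sub, LinearEquiv.apply_symm_apply] at h6
    rw [h6]
  · change F2 ((x (v.1 : M)), (v.2 : M)) = F2 ((v.1 : M), (v.2 : M))
    rw [hF2, hF2, hmm]

end trick

end Pool.Agent.K7.H41.FL
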