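import Pool.Agent.K7.H41.FL.Base

/-!
# The criterion and its version for linear actions
-/

set_option autoImplicit false

namespace Pool.Agent.K7.H41.FL

open Pool.Agent.Y110.FJ

/-- In the realization criterion the group in `C` may be replaced by the automorphism group of a
module of any rank, if the elements of `E` and `g E g⁻¹` are finitary. -/
theorem crit (C : ∀ (G : Type) [Group G], Prop) (hC : ClosedE C)
    (G : Type) [Group G] (N : Subgroup G) [N.Normal] (hQ : C (G ⧸ N))
    (h : ∀ (g : G) (E : Set G), E.Finite → E ⊆ N →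
      ∃ (R : Type) (_ : Ring R) (M : Type) (_ : AddCommGroup M) (_ : Module R M)
        (f : ↥(Subgroup.closure (E ∪ (fun x => g * x * g⁻¹) '' E)) →* (M ≃ₗ[R] M))
        (p : M ≃ₗ[R] M), Function.Injective f ∧
        Finitary C (f '' {x | (x : G) ∈ E ∪ (fun x => g * x * g⁻¹) '' E}) ∧
        ∀ x y : ↥(Subgroup.closure (E ∪ (fun x => g * x * g⁻¹) '' E)),
          (x : G) ∈ E → (y : G) = g * x * g⁻¹ → f y = p * f x * p⁻¹) : C G := by
  refine Pool.Agent.R779.FJ.t_crit Pool.Agent.Y529.FJ.t_ext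
    (Pool.Agent.Y961.FJ.t_perm Pool.Agent.Y529.FJ.t_ext) C hC G N hQ ?_
  intro g E hE hEN
  obtain ⟨R, _, M, _, _, f, p, hf, hF, hfp⟩ := h g E hE hEN
  obtain ⟨W, Y, hWY, -, ⟨S, hS⟩, -, hWs⟩ := hF ∅ Set.finite_empty
  obtain ⟨T, Z, hTZ, hST, hT, hCT, hTs⟩ := hF ((S : Set M) ∪ p '' S)
    ((S.finite_toSet).union (S.finite_toSet.image p))
  have hWT : W ≤ T := by
    rw [← hS, Submodule.span_le]
    exact fun s hs => hST (Or.inl hs)
  have hpT : ∀ w ∈ W, p w ∈ T := by
    have : W ≤ T.comap p.toLinearMap := by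
      rw [← hS, Submodule.span_le]
      exact fun s hs => hST (Or.inr ⟨s, hs, rfl⟩)
    exact fun w hw => this hw
  -- the elements of the subgroup preserve `T`
  have hgood : ∀ x : ↥(Subgroup.closure (E ∪ (fun x => g * x * g⁻¹) '' E)), Good T Z (f x) := by
    rintro ⟨x, hx⟩
    induction hx using Subgroup.closure_induction with
    | mem x hx =>
      exact good_of_supported hTZ (hTs _ ⟨⟨x, Subgroup.subset_closure hx⟩, hx, rfl⟩)
    | one =>
      have : f ⟨1, Subgroup.one_mem _⟩ = 1 := map_one f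
      rw [this]
      exact Good.one T Z
    | mul x y hx hy ihx ihy =>
      have : f ⟨x * y, Subgroup.mul_mem _ hx hy⟩ = f ⟨x, hx⟩ * f ⟨y, hy⟩ := by
        rw [← map_mul]
        rfl
      rw [this]
      exact ihx.mul ihy
    | inv x hx ihx =>
      have : f ⟨x⁻¹, Subgroup.inv_mem _ hx⟩ = (f ⟨x, hx⟩)⁻¹ := by
        rw [← map_inv]
        rfl
      rw [this]
      exact ihx.inv'
  let f' : ↥(Subgroup.closure (E ∪ (fun x => g * x * g⁻¹) '' E)) →* ((T × T) ≃ₗ[R] (T × T)) :=
    { toFun := fun x => fst T Z (f x) (hgood x)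
      map_one' := by
        ext v
        · simp [fst_apply]
        · simp [fst_apply]
      map_mul' := fun x y => by
        ext v
        · simp [fst_apply]
        · simp [fst_apply] }
  have hf'a : ∀ x v, f' x v = (⟨f x v.1, (hgood x).fwd _ v.1.2⟩, v.2) := fun _ _ => rfl
  obtain ⟨q, hq⟩ := trick hWY p hWT hpT
  refine ⟨(T × T) ≃ₗ[R] (T × T), inferInstance, f', q, hCT, ?_, ?_⟩
  · rw [injective_iff_map_eq_one]
    intro x hx
    have h1 : f x = 1 := by
      ext v
      obtain ⟨a, ha1, ha2, -, -⟩ := exists_proj hTZ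
      have h2 : f x (a v) = a v := by
        have h3 := hf'a x (⟨a v, ha1 v⟩, 0)
        rw [hx] at h3
        have h4 := congrArg (fun z : T × T => (z.1 : M)) h3
        exact h4.symm
      have h3 := (hgood x).fixes _ (ha2 v)
      have h4 : v = a v + (v - a v) := by abel
      rw [h4, map_add, h2, h3]
      rfl
    rw [← map_one f] at h1
    exact hf h1
  · intro x y hx hy
    rw [eq_mul_inv_iff_mul_eq]
    ext1 v
    have h1 := hq (f x) (f y) (hWs _ ⟨x, Or.inl hx, rfl⟩) (hfp x y hx hy)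
      (hgood x).fwd (hgood y).fwd v
    change f' y (q v) = q (f' x v)
    rw [hf'a, hf'a, h1]

/-- the version for linear actions of the whole group -/
theorem action (C : ∀ (G : Type) [Group G], Prop) (hC : ClosedE C)
    (G : Type) [Group G] (N : Subgroup G) [N.Normal] (hQ : C (G ⧸ N))
    (h : ∀ E : Set G, E.Finite → E ⊆ N →
      ∃ (R : Type) (_ : Ring R) (M : Type) (_ : AddCommGroup M) (_ : Module R M)
        (ρ : G →* (M ≃ₗ[R] M)), (∀ x ∈ Subgroup.closure E, ρ x = 1 → x = 1) ∧
        Finitary C (ρ '' E)) : C G := by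
  refine crit C hC G N hQ fun g E hE hEN => ?_
  set E' : Set G := E ∪ (fun x => g * x * g⁻¹) '' E with hE'
  have hE'N : E' ⊆ N := by
    rintro x (hx | ⟨x, hx, rfl⟩)
    · exact hEN hx
    · exact Subgroup.Normal.conj_mem inferInstance _ (hEN hx) g
  obtain ⟨R, _, M, _, _, ρ, h1, h2⟩ := h E' (hE.union (hE.image _)) hE'N
  refine ⟨R, inferInstance, M, inferInstance, inferInstance,
    ρ.comp (Subgroup.subtype _), ρ g, ?_, ?_, ?_⟩
  · rw [injective_iff_map_eq_one]
    intro x hx
    exact Subtype.ext (h1 x.1 x.2 hx)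
  · have : (ρ.comp (Subgroup.subtype (Subgroup.closure E'))) '' {x | (x : G) ∈ E'} = ρ '' E' := by
      ext z
      constructor
      · rintro ⟨x, hx, rfl⟩
        exact ⟨x, hx, rfl⟩
      · rintro ⟨x, hx, rfl⟩
        exact ⟨⟨x, Subgroup.subset_closure hx⟩, hx, rfl⟩
    rw [this]
    exact h2
  · intro x y hx hy
    change ρ y = ρ g * ρ x * (ρ g)⁻¹
    rw [hy]
    simp

end Pool.Agent.K7.H41.FL
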