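import Pool.Agent.K7.H41.FL.Stm

/-!
# Realization up to automorphisms with finite orbits
-/

set_option autoImplicit false

namespace Pool.Agent.K7.H41.FL

open Pool.Agent.Y110.FJ
open Pool.Agent.Y462.SS (Closed)

section lf

variable {P : Type} [Group P] (σ : MulAut P) (m : ℕ)

/-- the elements fixed by `σ ^ m` -/
def fixS : Subgroup P where
  carrier := {x | (σ ^ m) x = x}
  mul_mem' := by
    intro a b ha hb
    simp only [Set.mem_setOf_eq] at *
    rw [map_mul, ha, hb]
  one_mem' := map_one _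
  inv_mem' := by
    intro a ha
    simp only [Set.mem_setOf_eq] at *
    rw [map_inv, ha]

theorem mem_fixS (x : P) : x ∈ fixS σ m ↔ (σ ^ m) x = x := Iff.rfl

theorem sigma_mem {x : P} (hx : x ∈ fixS σ m) : σ x ∈ fixS σ m := by
  rw [mem_fixS] at *
  have h : (σ ^ m) (σ x) = σ ((σ ^ m) x) := by
    rw [← MulAut.mul_apply, ← MulAut.mul_apply, ← pow_succ, ← pow_succ']
  rw [h, hx]

theorem sigma_inv_mem {x : P} (hx : x ∈ fixS σ m) : σ⁻¹ x ∈ fixS σ m := by
  rw [mem_fixS] at *
  have h : (σ ^ m) (σ⁻¹ x) = σ⁻¹ ((σ ^ m) x) := by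
    rw [← MulAut.mul_apply, ← MulAut.mul_apply]
    congr 1
    exact (Commute.refl σ).pow_left m |>.inv_right.eq
  rw [h, hx]

/-- the restriction of `σ` -/
def sig0 : MulAut (fixS σ m) where
  toFun x := ⟨σ x, sigma_mem σ m x.2⟩
  invFun x := ⟨σ⁻¹ x, sigma_inv_mem σ m x.2⟩
  left_inv x := Subtype.ext (MulAut.inv_apply_self P σ x)
  right_inv x := Subtype.ext (MulAut.apply_inv_self P σ x)
  map_mul' x y := Subtype.ext (map_mul σ _ _)

theorem sig0_pow_apply (k : ℕ) (x : fixS σ m) : ((sig0 σ m ^ k) x : P) = (σ ^ k) x := by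
  induction k generalizing x with
  | zero => simp
  | succ k ih =>
    rw [pow_succ, pow_succ, MulAut.mul_apply, MulAut.mul_apply, ih]
    rfl

theorem sig0_pow : sig0 σ m ^ m = 1 := by
  ext x
  rw [sig0_pow_apply, (mem_fixS σ m _).1 x.2]
  rfl

/-- the semidirect product with `ℤ` -/
abbrev Semi : Type := fixS σ m ⋊[zpowersHom (MulAut (fixS σ m)) (sig0 σ m)] Multiplicative ℤ

theorem zp_one {n : ℤ} (h : (n : ZMod m) = 0) : sig0 σ m ^ n = 1 := by
  rw [ZMod.intCast_zmod_eq_zero_iff_dvd] at h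
  obtain ⟨k, rfl⟩ := h
  rw [zpow_mul, zpow_natCast, sig0_pow, one_zpow]

theorem C_semi {C : ∀ (G : Type) [Group G], Prop} (hC : Closed C) (hm : 0 < m) (hP : C P) :
    C (Semi σ m) := by
  haveI : NeZero m := ⟨hm.ne'⟩
  let θ : Semi σ m →* Multiplicative (ZMod m) :=
    (AddMonoidHom.toMultiplicative (Int.castAddHom (ZMod m))).comp SemidirectProduct.rightHom
  have hθ : ∀ x : Semi σ m, x ∈ θ.ker → ((Multiplicative.toAdd x.right : ℤ) : ZMod m) = 0 :=
    fun x hx => hx
  have hfi : θ.ker.FiniteIndex := Subgroup.finiteIndex_ker θ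
  refine hC.finiteIndex _ θ.ker hfi ?_
  have hP0 : C (fixS σ m) := hC.of_injective _ P (Subgroup.subtype _) Subtype.val_injective hP
  let j : θ.ker →* (fixS σ m) × Multiplicative ℤ :=
    { toFun := fun x => (x.1.left, x.1.right)
      map_one' := rfl
      map_mul' := fun x y => by
        refine Prod.ext ?_ rfl
        change x.1.left * ((zpowersHom (MulAut (fixS σ m)) (sig0 σ m)) x.1.right) y.1.left = _
        have h1 : (zpowersHom (MulAut (fixS σ m)) (sig0 σ m)) x.1.right = 1 := by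
          rw [zpowersHom_apply]
          exact zp_one σ m (hθ x.1 x.2)
        rw [h1]
        rfl }
  refine hC.of_injective _ _ j ?_ (hC.prod _ _ hP0 hC.int)
  intro x y hxy
  have h1 := Prod.mk.inj hxy
  exact Subtype.ext (SemidirectProduct.ext h1.1 h1.2)

end lf

/-- periods of finitely many elements -/
theorem common_period {P : Type} [Group P] (σ : MulAut P)
    (h : ∀ x, ∃ n : ℕ, 0 < n ∧ (σ ^ n) x = x) (F : Set P) (hF : F.Finite) :
    ∃ m : ℕ, 0 < m ∧ ∀ x ∈ F, (σ ^ m) x = x := by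
  induction F, hF using Set.Finite.induction_on with
  | empty => exact ⟨1, one_pos, fun x hx => absurd hx (Set.notMem_empty x)⟩
  | insert _ _ ih =>
    rename_i a s _ _
    obtain ⟨m, hm, hms⟩ := ih
    obtain ⟨n, hn, hna⟩ := h a
    have hpow : ∀ (k l : ℕ) (x : P), (σ ^ k) x = x → (σ ^ (k * l)) x = x := by
      intro k l x hx
      induction l with
      | zero => simp
      | succ l ih =>
        rw [Nat.mul_succ, pow_add, MulAut.mul_apply, hx, ih]
    refine ⟨m * n, Nat.mul_pos hm hn, fun x hx => ?_⟩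
    rcases hx with rfl | hx
    · rw [mul_comm]
      exact hpow n m _ hna
    · exact hpow m n x (hms x hx)

/-- Realization up to automorphisms with finite orbits suffices. -/
theorem lf (C : ∀ (G : Type) [Group G], Prop) (hC : ClosedE C)
    (G : Type) [Group G] (N : Subgroup G) [N.Normal] (hQ : C (G ⧸ N))
    (h : ∀ (g : G) (E : Set G), E.Finite → E ⊆ N →
      ∃ (P : Type) (_ : Group P) (f : hull g E →* P) (σ : MulAut P) (p : P),
        C P ∧ Function.Injective f ∧ (∀ x, ∃ n : ℕ, 0 < n ∧ (σ ^ n) x = x) ∧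
        ∀ x y : hull g E, (x : G) ∈ E → (y : G) = g * x * g⁻¹ → f y = p * σ (f x) * p⁻¹) :
    C G := by
  refine Pool.Agent.R779.FJ.t_crit Pool.Agent.Y529.FJ.t_ext
    (Pool.Agent.Y961.FJ.t_perm Pool.Agent.Y529.FJ.t_ext) C hC G N hQ ?_
  intro g E hE hEN
  obtain ⟨P, _, f, σ, p, hP, hf, hσ, hfp⟩ := h g E hE hEN
  have hpair : (pair g E).Finite := hE.union (hE.image _)
  have hpre : {x : hull g E | (x : G) ∈ pair g E}.Finite :=
    hpair.preimage Subtype.val_injective.injOn
  obtain ⟨m, hm, hmF⟩ := common_period σ hσ (f '' {x : hull g E | (x : G) ∈ pair g E} ∪ {p})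
    ((hpre.image f).union (Set.finite_singleton p))
  have hfm : ∀ x : hull g E, f x ∈ fixS σ m := by
    rintro ⟨x, hx⟩
    induction hx using Subgroup.closure_induction with
    | mem x hx => exact hmF _ (Or.inl ⟨⟨x, Subgroup.subset_closure hx⟩, hx, rfl⟩)
    | one =>
      have : f ⟨1, Subgroup.one_mem _⟩ = 1 := map_one f
      rw [this]
      exact Subgroup.one_mem _
    | mul x y hx hy ihx ihy =>
      have : f ⟨x * y, Subgroup.mul_mem _ hx hy⟩ = f ⟨x, hx⟩ * f ⟨y, hy⟩ := by
        rw [← map_mul]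
        rfl
      rw [this]
      exact Subgroup.mul_mem _ ihx ihy
    | inv x hx ihx =>
      have : f ⟨x⁻¹, Subgroup.inv_mem _ hx⟩ = (f ⟨x, hx⟩)⁻¹ := by
        rw [← map_inv]
        rfl
      rw [this]
      exact Subgroup.inv_mem _ ihx
  have hpm : p ∈ fixS σ m := hmF p (Or.inr rfl)
  let f0 : hull g E →* fixS σ m := f.codRestrict (fixS σ m) hfm
  let f' : hull g E →* Semi σ m := SemidirectProduct.inl.comp f0
  let q : Semi σ m := ⟨⟨p, hpm⟩, Multiplicative.ofAdd 1⟩
  refine ⟨Semi σ m, inferInstance, f', q, C_semi σ m hC.base hm hP, ?_, ?_⟩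
  · intro x y hxy
    have h1 : f0 x = f0 y := SemidirectProduct.inl_injective hxy
    exact hf (congrArg Subtype.val h1)
  · intro x y hx hy
    rw [eq_mul_inv_iff_mul_eq]
    refine SemidirectProduct.ext ?_ ?_
    · refine Subtype.ext ?_
      have h1 := hfp x y hx hy
      have h2 : (zpowersHom (MulAut (fixS σ m)) (sig0 σ m)) (Multiplicative.ofAdd 1) =
          sig0 σ m := by
        rw [zpowersHom_apply]
        simp
      change f y * ((zpowersHom (MulAut (fixS σ m)) (sig0 σ m)) 1 ⟨p, hpm⟩ : P) =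
        p * ((zpowersHom (MulAut (fixS σ m)) (sig0 σ m)) (Multiplicative.ofAdd 1) (f0 x) : P)
      rw [h2, map_one, h1]
      change p * σ (f x) * p⁻¹ * p = p * σ (f x)
      group
    · change (1 : Multiplicative ℤ) * Multiplicative.ofAdd 1 = Multiplicative.ofAdd 1 * 1
      rw [one_mul, mul_one]

end Pool.Agent.K7.H41.FL
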