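import Pool.Agent.K7.H41.FL.Base

/-!
# Finitary kernels: the statements
-/

set_option autoImplicit false

namespace Pool.Agent.K7.H41.FL

/-- the group of the automorphisms of the `R`-module `M` -/
abbrev Aut (R M : Type) [Ring R] [AddCommGroup M] [Module R M] : Type := M ≃ₗ[R] M

/-- The set `X` of endomorphisms of the `R`-module `M` is locally split: for each finite subset `A`
of `M` there is a decomposition `M = W ⊕ Y` such that `W` is a finitely generated projective module
that contains `A`, and the elements of `X` map `W` into itself and vanish on `Y`. -/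
def LocSplit {R M : Type} [Ring R] [AddCommGroup M] [Module R M] (X : Set (Module.End R M)) :
    Prop :=
  ∀ A : Set M, A.Finite → ∃ W Y : Submodule R M, IsCompl W Y ∧ A ⊆ W ∧ W.FG ∧
    Module.Projective R W ∧ ∀ t ∈ X, (∀ w ∈ W, t w ∈ W) ∧ ∀ y ∈ Y, t y = 0

/-- all groups `GL_n(R)` are in `C` -/
def GLIn (C : ∀ (G : Type) [Group G], Prop) (R : Type) [Ring R] : Prop :=
  ∀ n : ℕ, C (Aut R (Fin n → R))

/-- `E ∪ g E g⁻¹` -/
def pair {G : Type} [Group G] (g : G) (E : Set G) : Set G := E ∪ (fun x => g * x * g⁻¹) '' E

/-- the subgroup generated by `E ∪ g E g⁻¹` -/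
def hull {G : Type} [Group G] (g : G) (E : Set G) : Subgroup G := Subgroup.closure (pair g E)

/-- `f` maps `g x g⁻¹` to `p f(x) p⁻¹` for `x` in `E` -/
def Intertwines {R M G : Type} [Ring R] [AddCommGroup M] [Module R M] [Group G] (g : G)
    (E : Set G) (f : hull g E →* Aut R M) (p : Aut R M) : Prop :=
  ∀ x y : hull g E, (x : G) ∈ E → (y : G) = g * x * g⁻¹ → f y = p * f x * p⁻¹

/-- `f` is injective and the images of the elements of `E ∪ g E g⁻¹` are finitary -/
def InjFinitary (C : ∀ (G : Type) [Group G], Prop) {R M G : Type} [Ring R] [AddCommGroup M]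
    [Module R M] [Group G] (g : G) (E : Set G) (f : hull g E →* Aut R M) : Prop :=
  Function.Injective f ∧ Finitary C (f '' {x | (x : G) ∈ pair g E})

/-- the conjugation by `g` on the finite set `E` is realized in the automorphism group of a module
of any rank, and the elements of `E` and of `g E g⁻¹` are finitary -/
def RealizedInfinite (C : ∀ (G : Type) [Group G], Prop) {G : Type} [Group G] (g : G) (E : Set G) :
    Prop :=
  ∃ (R : Type) (_ : Ring R) (M : Type) (_ : AddCommGroup M) (_ : Module R M)
    (f : hull g E →* Aut R M) (p : Aut R M), InjFinitary C g E f ∧ Intertwines g E f p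

/-- the criterion -/
def Criterion (C : ∀ (G : Type) [Group G], Prop) : Prop :=
  ∀ (G : Type) [Group G] (N : Subgroup G) [N.Normal], C (G ⧸ N) →
    (∀ (g : G) (E : Set G), E.Finite → E ⊆ N → RealizedInfinite C g E) → C G

/-- the endomorphisms `x - 1` for `x` in `E` -/
def minusOne {R M G : Type} [Ring R] [AddCommGroup M] [Module R M] [Group G]
    (ρ : G →* Aut R M) (E : Set G) : Set (Module.End R M) :=
  (fun x => (ρ x : Module.End R M) - 1) '' E

/-- `ρ` is faithful on the subgroup generated by `E` -/
def FaithfulOn {R M G : Type} [Ring R] [AddCommGroup M] [Module R M] [Group G]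
    (ρ : G →* Aut R M) (E : Set G) : Prop :=
  ∀ x ∈ Subgroup.closure E, ρ x = 1 → x = 1

/-- `G` acts linearly on a module of any rank over a ring with all `GL_n(R)` in `C`, faithfully on the
subgroup generated by `E`, and the endomorphisms `x - 1`, `x` in `E`, are locally split -/
def LinearFor (C : ∀ (G : Type) [Group G], Prop) {G : Type} [Group G] (E : Set G) : Prop :=
  ∃ (R : Type) (_ : Ring R) (M : Type) (_ : AddCommGroup M) (_ : Module R M)
    (ρ : G →* Aut R M), GLIn C R ∧ FaithfulOn ρ E ∧ LocSplit (minusOne ρ E)

/-- finitary linear kernels -/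
def LinearKernels (C : ∀ (G : Type) [Group G], Prop) : Prop :=
  ∀ (G : Type) [Group G] (N : Subgroup G) [N.Normal], C (G ⧸ N) →
    (∀ E : Set G, E.Finite → E ⊆ N → LinearFor C E) → C G

/-- The ring `T` acts by `φ` on a module of any rank over a ring with all `GL_n(R)` in `C`, the
subring without unit generated by `X` acts faithfully, and `X` is locally split. -/
def OperatorsFor (C : ∀ (G : Type) [Group G], Prop) {T : Type} [Ring T] (X : Set T) : Prop :=
  ∃ (R : Type) (_ : Ring R) (M : Type) (_ : AddCommGroup M) (_ : Module R M)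
    (φ : T →+* Module.End R M), GLIn C R ∧
    (∀ t ∈ NonUnitalSubring.closure X, φ t = 0 → t = 0) ∧ LocSplit (φ '' X)

/-- extensions of rings by finitary ideals -/
def FinitaryIdealsStm (C : ∀ (G : Type) [Group G], Prop) : Prop :=
  ∀ (T T' : Type) [Ring T] [Ring T'] (π : T →+* T'),
    (∀ X : Set T, X.Finite → (∀ t ∈ X, π t = 0) → OperatorsFor C X) →
    ∀ n : ℕ, C (Matrix (Fin n) (Fin n) T')ˣ → C (Matrix (Fin n) (Fin n) T)ˣ

/-- the special case of an ideal that acts faithfully and by endomorphisms of finite rank on a vector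
space of any dimension over a division ring `K` -/
def FiniteRankIdeals (C : ∀ (G : Type) [Group G], Prop) : Prop :=
  ∀ (K : Type) [DivisionRing K] (V : Type) [AddCommGroup V] [Module K V], GLIn C K →
    ∀ (T T' : Type) [Ring T] [Ring T'] (π : T →+* T') (φ : T →+* Module.End K V),
      (∀ t, π t = 0 → φ t = 0 → t = 0) → (∀ t, π t = 0 → (LinearMap.range (φ t)).FG) →
      ∀ n : ℕ, C (Matrix (Fin n) (Fin n) T')ˣ → C (Matrix (Fin n) (Fin n) T)ˣ

/-- the special case of an ideal that acts faithfully on a free module of any rank over a ring `R`,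
every element of the ideal vanishing on almost all elements of the basis -/
def MatrixIdeals (C : ∀ (G : Type) [Group G], Prop) : Prop :=
  ∀ (R : Type) [Ring R] (M ι : Type) [AddCommGroup M] [Module R M] (b : Module.Basis ι R M),
    GLIn C R → ∀ (T T' : Type) [Ring T] [Ring T'] (π : T →+* T') (φ : T →+* Module.End R M),
      (∀ t, π t = 0 → φ t = 0 → t = 0) → (∀ t, π t = 0 → {i | φ t (b i) ≠ 0}.Finite) →
      ∀ n : ℕ, C (Matrix (Fin n) (Fin n) T')ˣ → C (Matrix (Fin n) (Fin n) T)ˣ

/-- finite sets of endomorphisms of finite rank of vector spaces over division rings are locally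
split -/
def FiniteRankSplit : Prop :=
  ∀ (K : Type) [DivisionRing K] (V : Type) [AddCommGroup V] [Module K V]
    (X : Set (Module.End K V)), X.Finite → (∀ t ∈ X, (LinearMap.range t).FG) → LocSplit X

/-- finite sets of endomorphisms of a free module over any ring which vanish on almost all elements
of a basis are locally split -/
def BasisSplit : Prop :=
  ∀ (R : Type) [Ring R] (M ι : Type) [AddCommGroup M] [Module R M] (b : Module.Basis ι R M)
    (X : Set (Module.End R M)), X.Finite → (∀ t ∈ X, {i | t (b i) ≠ 0}.Finite) → LocSplit X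

end Pool.Agent.K7.H41.FL
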