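import Pool.Agent.K7.H41.FL.Crit
import Pool.Agent.K7.H41.FL.Stm

/-!
# Modules over rings with `GL_n(R)` in `C`, division rings, rings of operators
-/

set_option autoImplicit false

namespace Pool.Agent.K7.H41.FL

open Pool.Agent.Y110.FJ
open Pool.Agent.Y462.SS (Closed)

section emb

variable {R D P : Type} [Ring R] [AddCommGroup D] [Module R D] [AddCommGroup P] [Module R P]

/-- automorphisms of a direct summand are extended by the identity -/
def emb (f : D →ₗ[R] P) (s : P →ₗ[R] D) (h : ∀ x, f (s x) = x) : (P ≃ₗ[R] P) →* (D ≃ₗ[R] D) where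
  toFun φ :=
    { toFun := fun d => s (φ (f d)) + (d - s (f d))
      map_add' := fun d e => by
        simp only [map_add]
        abel
      map_smul' := fun r d => by
        simp only [map_smul, RingHom.id_apply, smul_add, smul_sub]
      invFun := fun d => s (φ.symm (f d)) + (d - s (f d))
      left_inv := fun d => by
        simp only [map_add, map_sub, h, sub_self, add_zero, LinearEquiv.symm_apply_apply]
        abel
      right_inv := fun d => by
        simp only [map_add, map_sub, h, sub_self, add_zero, LinearEquiv.apply_symm_apply]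
        abel }
  map_one' := by
    ext d
    change s (f d) + (d - s (f d)) = d
    abel
  map_mul' φ ψ := by
    ext d
    change s (φ (ψ (f d))) + (d - s (f d)) =
      s (φ (f (s (ψ (f d)) + (d - s (f d))))) + ((s (ψ (f d)) + (d - s (f d))) -
        s (f (s (ψ (f d)) + (d - s (f d)))))
    simp only [map_add, map_sub, h, sub_self, add_zero]
    abel

theorem emb_apply (f : D →ₗ[R] P) (s : P →ₗ[R] D) (h : ∀ x, f (s x) = x) (φ : P ≃ₗ[R] P) (d : D) :
    emb f s h φ d = s (φ (f d)) + (d - s (f d)) := rfl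

theorem emb_injective (f : D →ₗ[R] P) (s : P →ₗ[R] D) (h : ∀ x, f (s x) = x) :
    Function.Injective (emb f s h) := by
  intro φ ψ hφ
  ext x
  have h1 := congrArg (fun e : D ≃ₗ[R] D => f (e (s x))) hφ
  simpa only [emb_apply, map_add, map_sub, h, sub_self, add_zero] using h1

theorem C_aut {C : ∀ (G : Type) [Group G], Prop} (hC : Closed C)
    (hR : ∀ n : ℕ, C ((Fin n → R) ≃ₗ[R] (Fin n → R))) [Module.Finite R P]
    [Module.Projective R P] : C (P ≃ₗ[R] P) := by
  obtain ⟨n, f, hf⟩ := Module.Finite.exists_fin' R P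
  obtain ⟨s, hs⟩ := Module.projective_lifting_property f LinearMap.id hf
  have h : ∀ x, f (s x) = x := fun x => LinearMap.congr_fun hs x
  exact hC.of_injective _ _ (emb f s h) (emb_injective f s h) (hR n)

end emb

theorem finitary_of_locSplit {C : ∀ (G : Type) [Group G], Prop} (hC : Closed C)
    {R M : Type} [Ring R] [AddCommGroup M] [Module R M]
    (hR : ∀ n : ℕ, C ((Fin n → R) ≃ₗ[R] (Fin n → R))) {X : Set (M ≃ₗ[R] M)}
    (h : LocSplit ((fun x : M ≃ₗ[R] M => (x : Module.End R M) - 1) '' X)) : Finitary C X := by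
  intro A hA
  obtain ⟨W, Y, hWY, hAW, hW, hP, hX⟩ := h A hA
  haveI : Module.Finite R W := Module.Finite.iff_fg.2 hW
  refine ⟨W, Y, hWY, hAW, hW, C_aut hC hR, fun x hx => ?_⟩
  obtain ⟨h1, h2⟩ := hX _ ⟨x, hx, rfl⟩
  refine ⟨fun w hw => ?_, fun y hy => ?_⟩
  · have h3 : x w - w ∈ W := h1 w hw
    have h4 := W.add_mem h3 hw
    rwa [sub_add_cancel] at h4
  · have h3 : x y - y = 0 := h2 y hy
    exact sub_eq_zero.1 h3

/-- modules over rings with `GL_n(R)` in `C` -/
theorem rings (C : ∀ (G : Type) [Group G], Prop) (hC : ClosedE C)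
    (G : Type) [Group G] (N : Subgroup G) [N.Normal] (hQ : C (G ⧸ N))
    (h : ∀ E : Set G, E.Finite → E ⊆ N →
      ∃ (R : Type) (_ : Ring R) (M : Type) (_ : AddCommGroup M) (_ : Module R M)
        (ρ : G →* (M ≃ₗ[R] M)), (∀ n : ℕ, C ((Fin n → R) ≃ₗ[R] (Fin n → R))) ∧
        (∀ x ∈ Subgroup.closure E, ρ x = 1 → x = 1) ∧
        LocSplit ((fun x => (ρ x : Module.End R M) - 1) '' E)) : C G := by
  refine action C hC G N hQ fun E hE hEN => ?_
  obtain ⟨R, _, M, _, _, ρ, h1, h2, h3⟩ := h E hE hEN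
  refine ⟨R, inferInstance, M, inferInstance, inferInstance, ρ, h2,
    finitary_of_locSplit hC.base h1 ?_⟩
  rw [← Set.image_comp]
  exact h3

/-- over a division ring finite sets of endomorphisms of finite rank are locally split -/
theorem locSplit_of_finite {K V : Type} [DivisionRing K] [AddCommGroup V] [Module K V]
    (X : Set (Module.End K V)) (hX : X.Finite) (h : ∀ t ∈ X, (LinearMap.range t).FG) :
    LocSplit X := by
  intro A hA
  haveI : Finite X := hX
  haveI : ∀ t : X, Module.Finite K (LinearMap.range t.1) := fun t =>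
    Module.Finite.iff_fg.2 (h t.1 t.2)
  let W0 : Submodule K V := Submodule.span K A ⊔ ⨆ t : X, LinearMap.range t.1
  let K0 : Submodule K V := ⨅ t : X, LinearMap.ker t.1
  have hW0 : W0.FG := (Submodule.fg_span hA).sup (Submodule.fg_iSup _ fun t => h t.1 t.2)
  have hK0 : ∀ v, v ∈ K0 ↔ ∀ t ∈ X, t v = 0 := by
    intro v
    simp [K0]
  have hrange : ∀ t ∈ X, ∀ v, t v ∈ W0 := fun t ht v =>
    (le_sup_right : _ ≤ W0) (Submodule.mem_iSup_of_mem ⟨t, ht⟩ ⟨v, rfl⟩)
  obtain ⟨Q, hQ⟩ := exists_isCompl (W0 ⊓ K0)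
  obtain ⟨Q', hQ'⟩ := exists_isCompl (K0 ⊔ W0)
  have hYK : (Q ⊓ K0) ⊔ (W0 ⊓ K0) = K0 := by
    have h1 : (W0 ⊓ K0) ⊔ Q ⊓ K0 = ((W0 ⊓ K0) ⊔ Q) ⊓ K0 :=
      (sup_inf_assoc_of_le Q (inf_le_right : W0 ⊓ K0 ≤ K0)).symm
    rw [sup_comm, h1, hQ.sup_eq_top, top_inf_eq]
  have hYW : Disjoint W0 (Q ⊓ K0) := by
    rw [Submodule.disjoint_def]
    intro v hv1 hv2
    have h1 := hQ.disjoint
    rw [Submodule.disjoint_def] at h1
    exact h1 v ⟨hv1, hv2.2⟩ hv2.1
  have hQfin : Q'.FG := by
    rw [← Module.Finite.iff_fg]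
    let L : Q' →ₗ[K] (∀ t : X, LinearMap.range t.1) :=
      LinearMap.pi fun t => t.1.rangeRestrict ∘ₗ Q'.subtype
    refine Module.Finite.of_injective L ?_
    rw [← LinearMap.ker_eq_bot, LinearMap.ker_eq_bot']
    intro v hv
    have h1 : (v : V) ∈ K0 := by
      rw [hK0]
      intro t ht
      exact congrArg Subtype.val (congrFun hv ⟨t, ht⟩)
    have h2 := hQ'.disjoint
    rw [Submodule.disjoint_def] at h2
    exact Subtype.ext (h2 v.1 ((le_sup_left : K0 ≤ K0 ⊔ W0) h1) v.2)
  refine ⟨W0 ⊔ Q', Q ⊓ K0, ⟨?_, ?_⟩, ?_, hW0.sup hQfin, inferInstance, fun t ht => ⟨?_, ?_⟩⟩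
  · rw [Submodule.disjoint_def]
    intro v hv1 hv2
    obtain ⟨w, hw, q, hq, rfl⟩ := Submodule.mem_sup.1 hv1
    have h1 : q ∈ K0 ⊔ W0 := by
      have h3 : q = (w + q) - w := by abel
      rw [h3]
      exact Submodule.sub_mem _ ((le_sup_left : K0 ≤ K0 ⊔ W0) hv2.2)
        ((le_sup_right : W0 ≤ K0 ⊔ W0) hw)
    have h2 := hQ'.disjoint
    rw [Submodule.disjoint_def] at h2
    have h3 := h2 q h1 hq
    rw [h3, add_zero] at hv2 ⊢
    have h4 := hYW
    rw [Submodule.disjoint_def] at h4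
    exact h4 w hw hv2
  · rw [codisjoint_iff]
    have h1 : W0 ⊔ Q' ⊔ (Q ⊓ K0) = (K0 ⊔ W0) ⊔ Q' := by
      have h2 : W0 ⊔ (Q ⊓ K0) = K0 ⊔ W0 := by
        apply le_antisymm
        · exact sup_le le_sup_right (inf_le_right.trans le_sup_left)
        · refine sup_le ?_ le_sup_left
          conv_lhs => rw [← hYK]
          exact sup_le le_sup_right (inf_le_left.trans le_sup_left)
      rw [← h2]
      ac_rfl
    rw [h1, hQ'.sup_eq_top]
  · intro a ha
    exact (le_sup_left : W0 ≤ W0 ⊔ Q') ((le_sup_left : _ ≤ W0) (Submodule.subset_span ha))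
  · intro w _
    exact (le_sup_left : W0 ≤ W0 ⊔ Q') (hrange t ht w)
  · intro y hy
    exact (hK0 y).1 hy.2 t ht

section ops

variable {R M : Type} [Ring R] [AddCommGroup M] [Module R M]

/-- the action of matrices over a ring of operators -/
noncomputable def mact {T : Type} [Ring T] (φ : T →+* Module.End R M) (n : ℕ) :
    (Matrix (Fin n) (Fin n) T)ˣ →* ((Fin n → M) ≃ₗ[R] (Fin n → M)) :=
  (LinearMap.GeneralLinearGroup.generalLinearEquiv R (Fin n → M)).toMonoidHom.comp
    (Units.map (((endVecRingEquivMatrixEnd (Fin n) R M).symm.toRingHom.comp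
      φ.mapMatrix).toMonoidHom))

theorem mact_apply {T : Type} [Ring T] (φ : T →+* Module.End R M) (n : ℕ)
    (x : (Matrix (Fin n) (Fin n) T)ˣ) (v : Fin n → M) (i : Fin n) :
    mact φ n x v i = ∑ j, φ (x.1 i j) (v j) := rfl

theorem isCompl_pi {n : ℕ} {W Y : Submodule R M} (h : IsCompl W Y) :
    IsCompl (Submodule.pi Set.univ fun _ : Fin n => W)
      (Submodule.pi Set.univ fun _ : Fin n => Y) := by
  obtain ⟨a, ha1, ha2, ha3, ha4⟩ := exists_proj h
  constructor
  · rw [Submodule.disjoint_def]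
    intro v hv1 hv2
    have h1 := h.disjoint
    rw [Submodule.disjoint_def] at h1
    ext i
    exact h1 _ (hv1 i trivial) (hv2 i trivial)
  · rw [codisjoint_iff, eq_top_iff]
    intro v _
    rw [Submodule.mem_sup]
    refine ⟨fun i => a (v i), fun i _ => ha1 _, fun i => v i - a (v i), fun i _ => ha2 _, ?_⟩
    ext i
    simp

/-- the product of copies of a submodule -/
def piEquiv (n : ℕ) (W : Submodule R M) :
    (Fin n → W) ≃ₗ[R] (Submodule.pi Set.univ fun _ : Fin n => W) where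
  toFun v := ⟨fun i => v i, fun i _ => (v i).2⟩
  invFun v := fun i => ⟨v.1 i, v.2 i trivial⟩
  map_add' _ _ := rfl
  map_smul' _ _ := rfl
  left_inv _ := rfl
  right_inv _ := rfl

theorem projective_pi (n : ℕ) (W : Submodule R M) [Module.Projective R W] :
    Module.Projective R (Fin n → W) := by
  have e : (Π₀ _ : Fin n, W) ≃ₗ[R] (Fin n → W) := DFinsupp.linearEquivFunOnFintype (R := R)
  exact Module.Projective.of_equiv e

end ops

/-- the entries of `x - 1` and `x⁻¹ - 1` for `x` in a subgroup generated by `E` -/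
theorem entries_mem {T : Type} [Ring T] {n : ℕ} (E : Set (Matrix (Fin n) (Fin n) T)ˣ)
    (S : NonUnitalSubring T)
    (hE : ∀ x ∈ E, ∀ i j, x.1 i j - (1 : Matrix (Fin n) (Fin n) T) i j ∈ S ∧
      (x⁻¹).1 i j - (1 : Matrix (Fin n) (Fin n) T) i j ∈ S) :
    ∀ x ∈ Subgroup.closure E, ∀ i j, x.1 i j - (1 : Matrix (Fin n) (Fin n) T) i j ∈ S ∧
      (x⁻¹).1 i j - (1 : Matrix (Fin n) (Fin n) T) i j ∈ S := by
  have hmul : ∀ a b : Matrix (Fin n) (Fin n) T,
      (∀ i j, a i j - (1 : Matrix (Fin n) (Fin n) T) i j ∈ S) →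
      (∀ i j, b i j - (1 : Matrix (Fin n) (Fin n) T) i j ∈ S) →
      ∀ i j, (a * b) i j - (1 : Matrix (Fin n) (Fin n) T) i j ∈ S := by
    intro a b ha hb i j
    have h1 : a * b - 1 = (a - 1) * (b - 1) + (a - 1) + (b - 1) := by
      noncomm_ring
    have h2 : (a * b) i j - (1 : Matrix (Fin n) (Fin n) T) i j =
        (∑ k, (a i k - (1 : Matrix (Fin n) (Fin n) T) i k) *
          (b k j - (1 : Matrix (Fin n) (Fin n) T) k j)) +
        (a i j - (1 : Matrix (Fin n) (Fin n) T) i j) +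
        (b i j - (1 : Matrix (Fin n) (Fin n) T) i j) := by
      have h3 := congrFun (congrFun h1 i) j
      rw [Matrix.sub_apply] at h3
      rw [h3]
      simp only [Matrix.add_apply, Matrix.mul_apply, Matrix.sub_apply]
    rw [h2]
    exact S.add_mem (S.add_mem (sum_mem fun k _ => S.mul_mem (ha i k) (hb k j)) (ha i j)) (hb i j)
  intro x hx
  induction hx using Subgroup.closure_induction with
  | mem x hx => exact hE x hx
  | one =>
    intro i j
    constructor
    · have : (1 : (Matrix (Fin n) (Fin n) T)ˣ).1 i j - (1 : Matrix (Fin n) (Fin n) T) i j = 0 := by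
        simp
      rw [this]
      exact S.zero_mem
    · have : ((1 : (Matrix (Fin n) (Fin n) T)ˣ)⁻¹).1 i j -
          (1 : Matrix (Fin n) (Fin n) T) i j = 0 := by
        simp
      rw [this]
      exact S.zero_mem
  | mul x y _ _ ihx ihy =>
    intro i j
    constructor
    · exact hmul x.1 y.1 (fun i j => (ihx i j).1) (fun i j => (ihy i j).1) i j
    · have : (x * y)⁻¹ = y⁻¹ * x⁻¹ := mul_inv_rev x y
      rw [this]
      exact hmul (y⁻¹).1 (x⁻¹).1 (fun i j => (ihy i j).2) (fun i j => (ihx i j).2) i j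
  | inv x _ ihx =>
    intro i j
    rw [inv_inv]
    exact ⟨(ihx i j).2, (ihx i j).1⟩

/-- rings of operators -/
theorem operators (C : ∀ (G : Type) [Group G], Prop) (hC : ClosedE C)
    (T T' : Type) [Ring T] [Ring T'] (π : T →+* T')
    (h2 : ∀ X : Set T, X.Finite → (∀ t ∈ X, π t = 0) → OperatorsFor C X) (n : ℕ)
    (hT : C (Matrix (Fin n) (Fin n) T')ˣ) : C (Matrix (Fin n) (Fin n) T)ˣ := by
  classical
  let f : (Matrix (Fin n) (Fin n) T)ˣ →* (Matrix (Fin n) (Fin n) T')ˣ :=
    Units.map (π.mapMatrix (m := Fin n)).toMonoidHom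
  have hker : ∀ x ∈ f.ker, ∀ i j, π (x.1 i j - (1 : Matrix (Fin n) (Fin n) T) i j) = 0 := by
    intro x hx i j
    have h3 : f x = 1 := hx
    have h4 : π (x.1 i j) = (1 : Matrix (Fin n) (Fin n) T') i j :=
      congrArg (fun u : (Matrix (Fin n) (Fin n) T')ˣ => u.1 i j) h3
    rw [map_sub, h4, sub_eq_zero]
    rw [Matrix.one_apply, Matrix.one_apply]
    split_ifs <;> simp
  refine rings C hC _ f.ker ?_ ?_
  · exact hC.base.of_injective _ _ (QuotientGroup.kerLift f) (QuotientGroup.kerLift_injective f) hT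
  intro E hE hEN
  let X : Set T := (⋃ i : Fin n, ⋃ j : Fin n,
      (fun x : (Matrix (Fin n) (Fin n) T)ˣ => x.1 i j - (1 : Matrix (Fin n) (Fin n) T) i j) '' E) ∪
      ⋃ i : Fin n, ⋃ j : Fin n, (fun x : (Matrix (Fin n) (Fin n) T)ˣ => (x⁻¹).1 i j -
        (1 : Matrix (Fin n) (Fin n) T) i j) '' E
  have hX : X.Finite := (Set.finite_iUnion fun i => Set.finite_iUnion fun j => hE.image _).union
    (Set.finite_iUnion fun i => Set.finite_iUnion fun j => hE.image _)
  have hXm : ∀ x ∈ E, ∀ i j, x.1 i j - (1 : Matrix (Fin n) (Fin n) T) i j ∈ X := fun x hx i j =>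
    Or.inl (Set.mem_iUnion.2 ⟨i, Set.mem_iUnion.2 ⟨j, x, hx, rfl⟩⟩)
  have hXm' : ∀ x ∈ E, ∀ i j, (x⁻¹).1 i j - (1 : Matrix (Fin n) (Fin n) T) i j ∈ X :=
    fun x hx i j => Or.inr (Set.mem_iUnion.2 ⟨i, Set.mem_iUnion.2 ⟨j, x, hx, rfl⟩⟩)
  have hX0 : ∀ t ∈ X, π t = 0 := by
    rintro t (ht | ht)
    · obtain ⟨i, ht⟩ := Set.mem_iUnion.1 ht
      obtain ⟨j, ht⟩ := Set.mem_iUnion.1 ht
      obtain ⟨x, hx, rfl⟩ := ht
      exact hker x (hEN hx) i j
    · obtain ⟨i, ht⟩ := Set.mem_iUnion.1 ht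
      obtain ⟨j, ht⟩ := Set.mem_iUnion.1 ht
      obtain ⟨x, hx, rfl⟩ := ht
      exact hker x⁻¹ (f.ker.inv_mem (hEN hx)) i j
  obtain ⟨R, _, M, _, _, φ, hR, h1, hs'⟩ := h2 X hX hX0
  refine ⟨R, inferInstance, Fin n → M, inferInstance, inferInstance, mact φ n, hR, ?_, ?_⟩
  · intro x hx hx1
    have hxN := entries_mem E (NonUnitalSubring.closure X) (fun x hx i j =>
      ⟨NonUnitalSubring.subset_closure (hXm x hx i j),
        NonUnitalSubring.subset_closure (hXm' x hx i j)⟩) x hx
    apply Units.ext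
    ext i j
    have h3 := h1 _ (hxN i j).1 ?_
    · exact sub_eq_zero.1 h3
    · ext m
      have h4 := congrArg (fun u : (Fin n → M) ≃ₗ[R] (Fin n → M) => u (Pi.single j m) i) hx1
      simp only [mact_apply] at h4
      rw [Finset.sum_eq_single j] at h4
      · rw [Pi.single_eq_same] at h4
        rw [map_sub, LinearMap.sub_apply, h4]
        change (Pi.single j m : Fin n → M) i - _ = 0
        rw [Matrix.one_apply]
        split_ifs with hij
        · subst hij
          simp
        · simp [hij]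
      · intro k _ hk
        rw [Pi.single_eq_of_ne hk, map_zero]
      · intro hj
        exact absurd (Finset.mem_univ j) hj
  · intro A hA
    obtain ⟨W, Y, hWY, hAW, hW, hP, hs⟩ := hs' (⋃ i : Fin n, (fun v : Fin n → M => v i) '' A)
      (Set.finite_iUnion fun i => hA.image _)
    have : Module.Finite R W := Module.Finite.iff_fg.2 hW
    have := projective_pi n W
    have key : ∀ x ∈ E, ∀ (v : Fin n → M) (i : Fin n),
        (((mact φ n x : Module.End R (Fin n → M)) - 1) v) i =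
          ∑ j, φ (x.1 i j - (1 : Matrix (Fin n) (Fin n) T) i j) (v j) := by
      intro x _ v i
      change mact φ n x v i - v i = _
      rw [mact_apply]
      simp only [map_sub, LinearMap.sub_apply, Finset.sum_sub_distrib]
      congr 1
      rw [Finset.sum_eq_single i]
      · simp
      · intro j _ hj
        rw [Matrix.one_apply_ne hj.symm]
        simp
      · intro hi
        exact absurd (Finset.mem_univ i) hi
    refine ⟨Submodule.pi Set.univ fun _ : Fin n => W, Submodule.pi Set.univ fun _ : Fin n => Y,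
      isCompl_pi hWY, ?_, ?_, Module.Projective.of_equiv (piEquiv n W), ?_⟩
    · intro v hv i _
      exact hAW (Set.mem_iUnion.2 ⟨i, v, hv, rfl⟩)
    · rw [← Module.Finite.iff_fg]
      exact Module.Finite.equiv (piEquiv n W)
    · rintro _ ⟨x, hx, rfl⟩
      refine ⟨fun w hw i _ => ?_, fun y hy => ?_⟩
      · rw [key x hx]
        refine W.sum_mem fun j _ => ?_
        exact (hs _ ⟨_, hXm x hx i j, rfl⟩).1 _ (hw j trivial)
      · ext i
        rw [key x hx]
        refine Finset.sum_eq_zero fun j _ => ?_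
        exact (hs _ ⟨_, hXm x hx i j, rfl⟩).2 _ (hy j trivial)

end Pool.Agent.K7.H41.FL
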