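import Pool.Agent.K7.H41.FL.Twist

/-!
# Twisted kernels: the proofs
-/

set_option autoImplicit false

namespace Pool.Agent.K7.H41.FL

open Pool.Agent.Y110.FJ
open Pool.Agent.Y462.SS (Closed)

/-- extension of automorphisms by the identity of a second copy -/
def inc {R D : Type} [Ring R] [AddCommGroup D] [Module R D] : Aut R D →* Aut R (D × D) where
  toFun A := LinearEquiv.prodCongr A (LinearEquiv.refl R D)
  map_one' := rfl
  map_mul' _ _ := rfl

theorem inc_apply {R D : Type} [Ring R] [AddCommGroup D] [Module R D] (A : Aut R D) (v : D × D) :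
    inc A v = (A v.1, v.2) := rfl

theorem twisted {C : ∀ (G : Type) [Group G], Prop} (hC : ClosedE C) : TwistedCriterion C := by
  intro G _ N _ hQ h
  refine lf C hC G N hQ fun g E hE hEN => ?_
  obtain ⟨R, _, M, _, _, f, σ, p, hR, hσ, hp, hf, hs, hfp⟩ := h g E hE hEN
  obtain ⟨W, Y, hWY, -, ⟨S, hS⟩, -, hWs⟩ := hs ∅ Set.finite_empty
  obtain ⟨T, Z, hTZ, hST, hT, hPT, hTs⟩ := hs ((S : Set M) ∪ p '' S)
    ((S.finite_toSet).union (S.finite_toSet.image p))
  have hWT : W ≤ T := by
    rw [← hS, Submodule.span_le]
    exact fun s hs => hST (Or.inl hs)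
  have hpT : ∀ w ∈ W, p w ∈ T := by
    intro w hw
    rw [← hS] at hw
    induction hw using Submodule.span_induction with
    | mem s hs => exact hST (Or.inr ⟨s, hs, rfl⟩)
    | zero =>
      rw [map_zero]
      exact T.zero_mem
    | add x y _ _ hx hy =>
      rw [map_add]
      exact T.add_mem hx hy
    | smul r x _ hx =>
      rw [hp]
      exact T.smul_mem _ hx
  have hgood : ∀ x : hull g E, Good T Z (f x) := by
    rintro ⟨x, hx⟩
    induction hx using Subgroup.closure_induction with
    | mem x hx =>
      exact good_of_supported hTZ (hTs _ ⟨⟨x, Subgroup.subset_closure hx⟩, hx, rfl⟩)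
    | one =>
      have : f ⟨1, Subgroup.one_mem _⟩ = 1 := map_one f
      rw [this]
      exact Good.one T Z
    | mul x y hx hy ihx ihy =>
      have : f ⟨x * y, Subgroup.mul_mem _ hx hy⟩ = f ⟨x, hx⟩ * f ⟨y, hy⟩ := by
        rw [← map_mul]
        rfl
      rw [this]
      exact ihx.mul ihy
    | inv x hx ihx =>
      have : f ⟨x⁻¹, Subgroup.inv_mem _ hx⟩ = (f ⟨x, hx⟩)⁻¹ := by
        rw [← map_inv]
        rfl
      rw [this]
      exact ihx.inv'
  have : Module.Finite R T := Module.Finite.iff_fg.2 hT
  obtain ⟨n, κ, hκs⟩ := Module.Finite.exists_fin' R T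
  obtain ⟨ι, hι⟩ := Module.projective_lifting_property κ LinearMap.id hκs
  have hκ : ∀ x, κ (ι x) = x := fun x => LinearMap.congr_fun hι x
  let r0 : hull g E →* Aut R T :=
    { toFun := fun x => res T Z (f x) (hgood x)
      map_one' := by
        apply LinearEquiv.ext
        intro v
        rw [res_apply]
        ext
        simp
      map_mul' := fun x y => by
        apply LinearEquiv.ext
        intro v
        rw [res_apply]
        ext
        simp only [map_mul]
        rfl }
  have hr0 : ∀ x, r0 x = res T Z (f x) (hgood x) := fun _ => rfl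
  let f' : hull g E →* Aut R ((Fin n → R) × (Fin n → R)) := inc.comp ((emb κ ι hκ).comp r0)
  have hf' : ∀ x v, f' x v = (emb κ ι hκ (res T Z (f x) (hgood x)) v.1, v.2) := fun _ _ => rfl
  obtain ⟨q, hq⟩ := twist hWY σ p hp hWT hpT κ ι hκ
  refine ⟨Aut R ((Fin n → R) × (Fin n → R)), inferInstance, f', cnj σ n, q, C_aut hC.base hR, ?_,
    cnj_orbits σ n hσ, ?_⟩
  · rw [injective_iff_map_eq_one]
    intro x hx
    have h0 : emb κ ι hκ (r0 x) = 1 := by
      apply LinearEquiv.ext
      intro v
      have h3 := congrArg (fun A : Aut R ((Fin n → R) × (Fin n → R)) => (A (v, 0)).1) hx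
      exact h3
    have h00 : r0 x = 1 := emb_injective κ ι hκ (h0.trans (map_one _).symm)
    have h1 : f x = 1 := by
      apply LinearEquiv.ext
      intro v
      obtain ⟨a, ha1, ha2, -, -⟩ := exists_proj hTZ
      have h2 : f x (a v) = a v := by
        have h3 := congrArg (fun A : Aut R T => (A ⟨a v, ha1 v⟩ : M)) h00
        exact h3
      have h3 := (hgood x).fixes _ (ha2 v)
      have h4 : v = a v + (v - a v) := by abel
      rw [h4, map_add, h2, h3]
      rfl
    rw [← map_one f] at h1
    exact hf h1
  · intro x y hx hy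
    rw [eq_mul_inv_iff_mul_eq]
    apply LinearEquiv.ext
    intro v
    have h1 := hq (f x) (f y) (hgood x) (hgood y)
      (by
        have h2 := hWs _ ⟨x, Or.inl hx, rfl⟩
        exact ⟨h2.1, h2.2⟩) (hfp x y hx hy) v
    change f' y (q v) = q (cnj σ n (f' x) v)
    rw [cnj_apply, hf', hf']
    have h3 : ent2 σ n (emb κ ι hκ (res T Z (f x) (hgood x)) ((ent2 σ n).symm v).1,
        ((ent2 σ n).symm v).2) = (ent σ n (emb κ ι hκ (res T Z (f x) (hgood x))
        ((ent σ n).symm v.1)), v.2) := by
      refine Prod.ext rfl ?_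
      exact (ent σ n).apply_symm_apply v.2
    rw [h3]
    exact h1.symm

theorem semilinear {C : ∀ (G : Type) [Group G], Prop} (hC : ClosedE C) : SemilinearKernels C := by
  intro G _ N _ hQ h
  refine twisted hC G N hQ fun g E hE hEN => ?_
  have hE'N : pair g E ⊆ N := by
    rintro x (hx | ⟨x, hx, rfl⟩)
    · exact hEN hx
    · exact Subgroup.Normal.conj_mem inferInstance _ (hEN hx) g
  have hhN : ∀ x : hull g E, (x : G) ∈ N := fun x => (Subgroup.closure_le N).2 hE'N x.2
  obtain ⟨R, _, M, _, _, _, _, hR, hθ, hρ, hN, hfa, hs⟩ :=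
    h (pair g E) (hE.union (hE.image _)) hE'N
  have hlin : ∀ (x : hull g E) (r : R) (v : M), (x : G) • (r • v) = r • ((x : G) • v) := by
    intro x r v
    rw [hρ x r v, hN x (hhN x)]
  let f : hull g E →* Aut R M :=
    { toFun := fun x =>
        { DistribMulAction.toAddEquiv M (x : G) with
          map_smul' := fun r v => hlin x r v }
      map_one' := by
        apply LinearEquiv.ext
        intro v
        exact one_smul G v
      map_mul' := fun x y => by
        apply LinearEquiv.ext
        intro v
        exact mul_smul (x : G) (y : G) v }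
  have hf : ∀ x v, f x v = (x : G) • v := fun _ _ => rfl
  refine ⟨R, inferInstance, M, inferInstance, inferInstance, f, MulSemiringAction.toRingEquiv G R g,
    DistribMulAction.toAddEquiv M g, hR, ?_, fun r v => hρ g r v, ?_, ?_, ?_⟩
  · intro r
    obtain ⟨k, hk, hkr⟩ := hθ g r
    refine ⟨k, hk, ?_⟩
    have h1 : ((MulSemiringAction.toRingEquiv G R g : R → R)) = fun r => g • r := rfl
    rw [h1, smul_iterate_apply]
    exact hkr
  · rw [injective_iff_map_eq_one]
    intro x hx
    refine Subtype.ext (hfa x.1 x.2 fun v => ?_)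
    have h1 := congrArg (fun A : Aut R M => A v) hx
    exact h1
  · intro A hA
    obtain ⟨W, Y, h1, h2, h3, h4, h5⟩ := hs A hA
    refine ⟨W, Y, h1, h2, h3, h4, ?_⟩
    rintro φ ⟨x, hx, rfl⟩
    exact h5 _ ⟨x.1, hx, rfl⟩
  · intro x y hx hy v
    change (y : G) • (g • v) = g • ((x : G) • v)
    rw [← mul_smul, ← mul_smul, hy]
    congr 1
    group

section standard

variable {K : Type} [Field K] {d : ℕ}

/-- the sum of the natural representation and its contragredient -/
def dbl : GL (Fin d) K →* Aut K ((Fin d → K) × (Fin d → K)) where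
  toFun A :=
    { toFun := fun v => (A.val.mulVec v.1, (A⁻¹.val.transpose).mulVec v.2)
      map_add' := fun v w => by
        simp only [Prod.fst_add, Prod.snd_add, Matrix.mulVec_add]
        rfl
      map_smul' := fun r v => by
        simp only [Prod.smul_fst, Prod.smul_snd, Matrix.mulVec_smul]
        rfl
      invFun := fun v => (A⁻¹.val.mulVec v.1, (A.val.transpose).mulVec v.2)
      left_inv := fun v => by
        refine Prod.ext ?_ ?_
        · simp only [Matrix.mulVec_mulVec, Units.inv_mul, Matrix.one_mulVec]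
        · simp only [Matrix.mulVec_mulVec, ← Matrix.transpose_mul, Units.inv_mul,
            Matrix.transpose_one, Matrix.one_mulVec]
      right_inv := fun v => by
        refine Prod.ext ?_ ?_
        · simp only [Matrix.mulVec_mulVec, Units.mul_inv, Matrix.one_mulVec]
        · simp only [Matrix.mulVec_mulVec, ← Matrix.transpose_mul, Units.mul_inv,
            Matrix.transpose_one, Matrix.one_mulVec] }
  map_one' := by
    apply LinearEquiv.ext
    intro v
    change (_, _) = v
    simp
  map_mul' A B := by
    apply LinearEquiv.ext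
    intro v
    change ((A * B).val.mulVec v.1, ((A * B)⁻¹.val.transpose).mulVec v.2) =
      (A.val.mulVec (B.val.mulVec v.1), (A⁻¹.val.transpose).mulVec ((B⁻¹.val.transpose).mulVec v.2))
    rw [Matrix.mulVec_mulVec, Matrix.mulVec_mulVec, ← Matrix.transpose_mul, mul_inv_rev,
      Units.val_mul, Units.val_mul]

theorem dbl_apply (A : GL (Fin d) K) (v : (Fin d → K) × (Fin d → K)) :
    dbl A v = (A.val.mulVec v.1, (A⁻¹.val.transpose).mulVec v.2) := rfl

theorem dbl_injective : Function.Injective (dbl (K := K) (d := d)) := by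
  intro A B h
  apply Units.ext
  have h1 : ∀ v, A.val.mulVec v = B.val.mulVec v := fun v =>
    congrArg (fun F : Aut K ((Fin d → K) × (Fin d → K)) => (F (v, 0)).1) h
  exact Matrix.mulVec_injective (funext h1)

theorem ent_mulVec (σ : K ≃+* K) (A : Matrix (Fin d) (Fin d) K) (v : Fin d → K) :
    ent σ d (A.mulVec v) = (A.map σ).mulVec (ent σ d v) := by
  ext i
  rw [ent_apply]
  simp only [Matrix.mulVec, dotProduct, map_sum, map_mul, Matrix.map_apply, ent_apply]

theorem standard {C : ∀ (G : Type) [Group G], Prop} (hC : ClosedE C) : StandardKernels C := by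
  intro K _ hK G _ N _ d j hj hQ hstd
  refine twisted hC G N hQ fun g E hE hEN => ?_
  have hE'N : pair g E ⊆ N := by
    rintro x (hx | ⟨x, hx, rfl⟩)
    · exact hEN hx
    · exact Subgroup.Normal.conj_mem inferInstance _ (hEN hx) g
  have hhN : hull g E ≤ N := (Subgroup.closure_le N).2 hE'N
  let i : hull g E →* N := Subgroup.inclusion hhN
  let f : hull g E →* Aut K ((Fin d → K) × (Fin d → K)) := dbl.comp (j.comp i)
  have hfinj : Function.Injective f :=
    dbl_injective.comp (hj.comp (Subgroup.inclusion_injective hhN))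
  have hsplit : SplitFor K {φ : (Fin d → K) × (Fin d → K) → (Fin d → K) × (Fin d → K) |
      ∃ x : hull g E, (x : G) ∈ pair g E ∧ φ = f x} := by
    intro A _
    refine ⟨⊤, ⊥, isCompl_top_bot, fun _ _ => trivial, Module.Finite.fg_top, inferInstance, ?_⟩
    rintro φ ⟨x, -, rfl⟩
    refine ⟨fun _ _ => trivial, fun y hy => ?_⟩
    rw [(Submodule.mem_bot K).1 hy, map_zero]
  obtain ⟨a, σ, hσ, ha⟩ := hstd g
  have hconj : ∀ x y : hull g E, (y : G) = g * x * g⁻¹ → i y = conjIn g (i x) := by
    intro x y hxy
    apply Subtype.ext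
    rw [conjIn, MulAut.conjNormal_apply]
    exact hxy
  rcases ha with ha | ha
  · let p : ((Fin d → K) × (Fin d → K)) ≃+ ((Fin d → K) × (Fin d → K)) :=
      (ent2 σ d).trans (dbl a).toAddEquiv
    have hp : ∀ v, p v = dbl a (ent2 σ d v) := fun _ => rfl
    refine ⟨K, inferInstance, (Fin d → K) × (Fin d → K), inferInstance, inferInstance, f, σ, p,
      hK, hσ, fun r v => ?_, hfinj, hsplit, ?_⟩
    · rw [hp, hp, ent2_smul, map_smul]
    · intro x y hx hy v
      have h1 := ha (i x)
      rw [← hconj x y hy] at h1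
      change (j (i y)).val = a.val * (j (i x)).val.map σ * a⁻¹.val at h1
      have h2 : (j (i y))⁻¹.val = a.val * ((j (i x))⁻¹.val.map σ) * a⁻¹.val := by
        have h3 : (j (i y)).val * (a.val * ((j (i x))⁻¹.val.map σ) * a⁻¹.val) = 1 := by
          rw [h1]
          have h4 : (j (i x)).val.map σ * (j (i x))⁻¹.val.map σ = 1 := by
            rw [← Matrix.map_mul, Units.mul_inv]
            exact Matrix.map_one σ (map_zero σ) (map_one σ)
          calc a.val * (j (i x)).val.map σ * a⁻¹.val * (a.val * ((j (i x))⁻¹.val.map σ) * a⁻¹.val)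
              = a.val * (j (i x)).val.map σ * (a⁻¹.val * a.val) * ((j (i x))⁻¹.val.map σ) *
                a⁻¹.val := by noncomm_ring
            _ = a.val * ((j (i x)).val.map σ * ((j (i x))⁻¹.val.map σ)) * a⁻¹.val := by
                rw [Units.inv_mul]
                noncomm_ring
            _ = 1 := by rw [h4, mul_one, Units.mul_inv]
        calc (j (i y))⁻¹.val = (j (i y))⁻¹.val * ((j (i y)).val *
              (a.val * ((j (i x))⁻¹.val.map σ) * a⁻¹.val)) := by rw [h3, mul_one]
          _ = _ := by rw [← mul_assoc, Units.inv_mul, one_mul]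
      change dbl (j (i y)) (dbl a (ent2 σ d v)) = dbl a (ent2 σ d (dbl (j (i x)) v))
      rw [dbl_apply, dbl_apply, dbl_apply, ent2_apply, ent2_apply, dbl_apply]
      refine Prod.ext ?_ ?_
      · simp only [Matrix.mulVec_mulVec, ent_mulVec]
        rw [h1, mul_assoc, Units.inv_mul, mul_one]
      · simp only [Matrix.mulVec_mulVec, ent_mulVec]
        have h5 : ((j (i x))⁻¹.val.transpose).map σ = ((j (i x))⁻¹.val.map σ).transpose := rfl
        rw [h2, h5, ← Matrix.transpose_mul, ← Matrix.transpose_mul]
        congr 2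
        calc a⁻¹.val * (a.val * (j (i x))⁻¹.val.map σ * a⁻¹.val)
            = (a⁻¹.val * a.val) * ((j (i x))⁻¹.val.map σ * a⁻¹.val) := by noncomm_ring
          _ = (j (i x))⁻¹.val.map σ * a⁻¹.val := by rw [Units.inv_mul, one_mul]
  · let p : ((Fin d → K) × (Fin d → K)) ≃+ ((Fin d → K) × (Fin d → K)) :=
      ((ent2 σ d).trans AddEquiv.prodComm).trans (dbl a).toAddEquiv
    have hp : ∀ v, p v = dbl a ((ent2 σ d v).2, (ent2 σ d v).1) := fun _ => rfl
    refine ⟨K, inferInstance, (Fin d → K) × (Fin d → K), inferInstance, inferInstance, f, σ, p,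
      hK, hσ, fun r v => ?_, hfinj, hsplit, ?_⟩
    · rw [hp, hp, ent2_smul]
      exact map_smul (dbl a) (σ r) ((ent2 σ d v).2, (ent2 σ d v).1)
    · intro x y hx hy v
      have h1 := ha (i x)
      rw [← hconj x y hy] at h1
      change (j (i y)).val = a.val * ((j (i x))⁻¹.val.map σ).transpose * a⁻¹.val at h1
      have h2 : (j (i y))⁻¹.val = a.val * ((j (i x)).val.map σ).transpose * a⁻¹.val := by
        have h3 : (j (i y)).val * (a.val * ((j (i x)).val.map σ).transpose * a⁻¹.val) = 1 := by
          rw [h1]
          have h4 : ((j (i x))⁻¹.val.map σ).transpose * ((j (i x)).val.map σ).transpose = 1 := by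
            rw [← Matrix.transpose_mul, ← Matrix.map_mul, Units.mul_inv,
              Matrix.map_one σ (map_zero σ) (map_one σ), Matrix.transpose_one]
          calc a.val * ((j (i x))⁻¹.val.map σ).transpose * a⁻¹.val *
                (a.val * ((j (i x)).val.map σ).transpose * a⁻¹.val)
              = a.val * ((j (i x))⁻¹.val.map σ).transpose * (a⁻¹.val * a.val) *
                ((j (i x)).val.map σ).transpose * a⁻¹.val := by noncomm_ring
            _ = a.val * (((j (i x))⁻¹.val.map σ).transpose *
                ((j (i x)).val.map σ).transpose) * a⁻¹.val := by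
                rw [Units.inv_mul]
                noncomm_ring
            _ = 1 := by rw [h4, mul_one, Units.mul_inv]
        calc (j (i y))⁻¹.val = (j (i y))⁻¹.val * ((j (i y)).val *
              (a.val * ((j (i x)).val.map σ).transpose * a⁻¹.val)) := by rw [h3, mul_one]
          _ = _ := by rw [← mul_assoc, Units.inv_mul, one_mul]
      change dbl (j (i y)) (dbl a ((ent2 σ d v).2, (ent2 σ d v).1)) =
        dbl a ((ent2 σ d (dbl (j (i x)) v)).2, (ent2 σ d (dbl (j (i x)) v)).1)
      rw [dbl_apply, dbl_apply, dbl_apply, ent2_apply, ent2_apply, dbl_apply]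
      refine Prod.ext ?_ ?_
      · simp only [Matrix.mulVec_mulVec, ent_mulVec]
        have h5 : ((j (i x))⁻¹.val.transpose).map σ = ((j (i x))⁻¹.val.map σ).transpose := rfl
        rw [h1, h5, mul_assoc, Units.inv_mul, mul_one]
      · simp only [Matrix.mulVec_mulVec, ent_mulVec]
        rw [h2, ← Matrix.transpose_mul]
        have h5 : a⁻¹.val * (a.val * ((j (i x)).val.map σ).transpose * a⁻¹.val) =
            ((j (i x)).val.map σ).transpose * a⁻¹.val := by
          calc a⁻¹.val * (a.val * ((j (i x)).val.map σ).transpose * a⁻¹.val)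
              = (a⁻¹.val * a.val) * (((j (i x)).val.map σ).transpose * a⁻¹.val) := by
                noncomm_ring
            _ = _ := by rw [Units.inv_mul, one_mul]
        rw [h5, Matrix.transpose_mul, Matrix.transpose_transpose]

end standard

end Pool.Agent.K7.H41.FL
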