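import Pool.Agent.K7.H41.FL.Stm

/-!
# Twisted kernels: the statements
-/

set_option autoImplicit false

namespace Pool.Agent.K7.H41.FL

/-- all orbits of the automorphism `σ` are finite -/
def FiniteOrbits {R : Type} [Ring R] (σ : R ≃+* R) : Prop := ∀ r : R, ∃ k : ℕ, 0 < k ∧ σ^[k] r = r

/-- `p` is semilinear: `p (r v) = σ(r) p(v)` -/
def SemiLin {R M : Type} [Ring R] [AddCommGroup M] [Module R M] (σ : R ≃+* R) (p : M ≃+ M) : Prop :=
  ∀ (r : R) (v : M), p (r • v) = σ r • p v

/-- For each finite subset `A` of `M` there is a decomposition `M = W ⊕ Y` such that `W` is a finitely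
generated projective module that contains `A`, and the maps in `Φ` map `W` into itself and fix the
elements of `Y`. -/
def SplitFor (R : Type) {M : Type} [Ring R] [AddCommGroup M] [Module R M] (Φ : Set (M → M)) :
    Prop :=
  ∀ A : Set M, A.Finite → ∃ W Y : Submodule R M, IsCompl W Y ∧ A ⊆ W ∧ W.FG ∧
    Module.Projective R W ∧ ∀ φ ∈ Φ, (∀ w ∈ W, φ w ∈ W) ∧ ∀ y ∈ Y, φ y = y

/-- the maps `f x` for `x` in `E ∪ g E g⁻¹` -/
def images {R M G : Type} [Ring R] [AddCommGroup M] [Module R M] [Group G] {g : G} {E : Set G}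
    (f : hull g E →* Aut R M) : Set (M → M) :=
  {φ | ∃ x : hull g E, (x : G) ∈ pair g E ∧ φ = f x}

/-- `f (g x g⁻¹) = p f(x) p⁻¹` for `x` in `E` -/
def IntertwinesBy {R M G : Type} [Ring R] [AddCommGroup M] [Module R M] [Group G] {g : G}
    {E : Set G} (f : hull g E →* Aut R M) (p : M ≃+ M) : Prop :=
  ∀ x y : hull g E, (x : G) ∈ E → (y : G) = g * x * g⁻¹ → ∀ v, f y (p v) = p (f x v)

/-- `f` is injective, `f x` is finitary for `x` in `E ∪ g E g⁻¹`, and `f (g x g⁻¹) = p f(x) p⁻¹` for
`x` in `E` -/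
def TwistedBy {R M G : Type} [Ring R] [AddCommGroup M] [Module R M] [Group G] {g : G}
    {E : Set G} (f : hull g E →* Aut R M) (p : M ≃+ M) : Prop :=
  Function.Injective f ∧ SplitFor R (images f) ∧ IntertwinesBy f p

/-- the conjugation by `g` on the finite set `E` is realized by a semilinear automorphism of a module
of any rank over a ring with all `GL_n(R)` in `C` -/
def RealizedTwisted (C : ∀ (G : Type) [Group G], Prop) {G : Type} [Group G] (g : G) (E : Set G) :
    Prop :=
  ∃ (R : Type) (_ : Ring R) (M : Type) (_ : AddCommGroup M) (_ : Module R M)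
    (f : hull g E →* Aut R M) (σ : R ≃+* R) (p : M ≃+ M),
    GLIn C R ∧ FiniteOrbits σ ∧ SemiLin σ p ∧ TwistedBy f p

/-- the criterion -/
def TwistedCriterion (C : ∀ (G : Type) [Group G], Prop) : Prop :=
  ∀ (G : Type) [Group G] (N : Subgroup G) [N.Normal], C (G ⧸ N) →
    (∀ (g : G) (E : Set G), E.Finite → E ⊆ N → RealizedTwisted C g E) → C G

/-- `G` acts on the ring `R`, with finite orbits of each element of `G` on `R`, and semilinearly on the
module `M` of any rank; `N` acts linearly, the subgroup generated by `E` faithfully, and the elements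
of `E` act finitarily; all `GL_n(R)` are in `C` -/
def SemilinearFor (C : ∀ (G : Type) [Group G], Prop) {G : Type} [Group G] (N : Subgroup G)
    (E : Set G) : Prop :=
  ∃ (R : Type) (_ : Ring R) (M : Type) (_ : AddCommGroup M) (_ : Module R M)
    (_ : MulSemiringAction G R) (_ : DistribMulAction G M), GLIn C R ∧
    (∀ (g : G) (r : R), ∃ k : ℕ, 0 < k ∧ g ^ k • r = r) ∧
    (∀ (g : G) (r : R) (v : M), g • (r • v) = (g • r) • (g • v)) ∧
    (∀ x ∈ N, ∀ r : R, x • r = r) ∧
    (∀ x ∈ Subgroup.closure E, (∀ v : M, x • v = v) → x = 1) ∧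
    SplitFor R {φ : M → M | ∃ x ∈ E, φ = fun v => x • v}

/-- finitary kernels of semilinear actions -/
def SemilinearKernels (C : ∀ (G : Type) [Group G], Prop) : Prop :=
  ∀ (G : Type) [Group G] (N : Subgroup G) [N.Normal], C (G ⧸ N) →
    (∀ E : Set G, E.Finite → E ⊆ N → SemilinearFor C N E) → C G

/-- the matrix `a σ(x) a⁻¹` -/
def stdMap {K : Type} [Field K] {d : ℕ} (a : GL (Fin d) K) (σ : K ≃+* K) (x : GL (Fin d) K) :
    Matrix (Fin d) (Fin d) K :=
  a.val * x.val.map σ * a⁻¹.val

/-- the matrix `a (σ(x)⁻¹)ᵀ a⁻¹` -/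
def dualMap {K : Type} [Field K] {d : ℕ} (a : GL (Fin d) K) (σ : K ≃+* K) (x : GL (Fin d) K) :
    Matrix (Fin d) (Fin d) K :=
  a.val * (x⁻¹.val.map σ).transpose * a⁻¹.val

/-- the element `g x g⁻¹` of the normal subgroup `N` -/
def conjIn {G : Type} [Group G] {N : Subgroup G} [N.Normal] (g : G) (x : N) : N :=
  MulAut.conjNormal g x

/-- `j (g x g⁻¹) = u (j x)` for all `x` in `N` -/
def ActsBy {K G : Type} [Field K] {d : ℕ} [Group G] {N : Subgroup G} [N.Normal]
    (j : N →* GL (Fin d) K) (g : G) (u : GL (Fin d) K → Matrix (Fin d) (Fin d) K) : Prop :=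
  ∀ x : N, (j (conjIn g x)).val = u (j x)

/-- `g` acts on the matrix group `N` by `x ↦ a σ(x) a⁻¹` or by `x ↦ a (σ(x)⁻¹)ᵀ a⁻¹`, where all orbits
of the automorphism `σ` of the field are finite -/
def ActsStandard {K G : Type} [Field K] {d : ℕ} [Group G] {N : Subgroup G} [N.Normal]
    (j : N →* GL (Fin d) K) (g : G) : Prop :=
  ∃ (a : GL (Fin d) K) (σ : K ≃+* K), FiniteOrbits σ ∧
    (ActsBy j g (stdMap a σ) ∨ ActsBy j g (dualMap a σ))

/-- kernels which are matrix groups on which all elements of `G` act by standard automorphisms -/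
def StandardKernels (C : ∀ (G : Type) [Group G], Prop) : Prop :=
  ∀ (K : Type) [Field K], GLIn C K → ∀ (G : Type) [Group G] (N : Subgroup G) [N.Normal] (d : ℕ)
    (j : N →* GL (Fin d) K), Function.Injective j → C (G ⧸ N) → (∀ g : G, ActsStandard j g) → C G

/-- finite sets of endomorphisms `φ` with `φ - 1` of finite rank of vector spaces over division
rings -/
def FiniteRankSplitFor : Prop :=
  ∀ (K : Type) [DivisionRing K] (V : Type) [AddCommGroup V] [Module K V]
    (X : Set (Module.End K V)), X.Finite → (∀ t ∈ X, (LinearMap.range (t - 1)).FG) →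
    SplitFor K {φ : V → V | ∃ t ∈ X, φ = t}

end Pool.Agent.K7.H41.FL
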