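import Pool.Agent.K7.H41.FL.LF
import Pool.Agent.K7.H41.FL.TStm
import Pool.Agent.K7.H41.FL.Mod

/-!
# The twisted trick
-/

set_option autoImplicit false

namespace Pool.Agent.K7.H41.FL

open Pool.Agent.Y110.FJ
open Pool.Agent.Y462.SS (Closed)

section swap

variable {R D : Type} [Ring R] [AddCommGroup D] [Module R D]

/-- the automorphism of `D × D` given by partial inverses -/
def swp (α β : D →ₗ[R] D) (h1 : ∀ v, α (β (α v)) = α v) (h2 : ∀ v, β (α (β v)) = β v) :
    (D × D) ≃ₗ[R] (D × D) where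
  toFun x := (α x.1 + (x.2 - α (β x.2)), β x.2 + (x.1 - β (α x.1)))
  map_add' x y := by
    refine Prod.ext ?_ ?_
    · simp only [Prod.fst_add, Prod.snd_add, map_add]
      abel
    · simp only [Prod.fst_add, Prod.snd_add, map_add]
      abel
  map_smul' r x := by
    refine Prod.ext ?_ ?_
    · simp only [Prod.smul_fst, Prod.smul_snd, map_smul, RingHom.id_apply, smul_add, smul_sub]
    · simp only [Prod.smul_fst, Prod.smul_snd, map_smul, RingHom.id_apply, smul_add, smul_sub]
  invFun x := (β x.1 + (x.2 - β (α x.2)), α x.2 + (x.1 - α (β x.1)))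
  left_inv x := by
    refine Prod.ext ?_ ?_
    · simp only [map_add, map_sub, h1, h2]
      abel
    · simp only [map_add, map_sub, h1, h2]
      abel
  right_inv x := by
    refine Prod.ext ?_ ?_
    · simp only [map_add, map_sub, h1, h2]
      abel
    · simp only [map_add, map_sub, h1, h2]
      abel

theorem swp_apply (α β : D →ₗ[R] D) (h1 : ∀ v, α (β (α v)) = α v)
    (h2 : ∀ v, β (α (β v)) = β v) (x : D × D) :
    swp α β h1 h2 x = (α x.1 + (x.2 - α (β x.2)), β x.2 + (x.1 - β (α x.1))) := rfl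

end swap

section entry

variable {R : Type} [Ring R] (σ : R ≃+* R) (n : ℕ)

/-- the entrywise action on `R^n` -/
def ent : (Fin n → R) ≃+ (Fin n → R) := AddEquiv.piCongrRight fun _ => σ.toAddEquiv

theorem ent_apply (v : Fin n → R) (i : Fin n) : ent σ n v i = σ (v i) := rfl

theorem ent_symm_apply (v : Fin n → R) (i : Fin n) : (ent σ n).symm v i = σ.symm (v i) := rfl

theorem ent_smul (r : R) (v : Fin n → R) : ent σ n (r • v) = σ r • ent σ n v := by
  ext i
  simp [ent_apply]

theorem ent_symm_smul (r : R) (v : Fin n → R) :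
    (ent σ n).symm (r • v) = σ.symm r • (ent σ n).symm v := by
  ext i
  simp [ent_symm_apply]

/-- the entrywise action on `R^n × R^n` -/
def ent2 : ((Fin n → R) × (Fin n → R)) ≃+ ((Fin n → R) × (Fin n → R)) :=
  AddEquiv.prodCongr (ent σ n) (ent σ n)

theorem ent2_apply (v : (Fin n → R) × (Fin n → R)) :
    ent2 σ n v = (ent σ n v.1, ent σ n v.2) := rfl

theorem ent2_symm_apply (v : (Fin n → R) × (Fin n → R)) :
    (ent2 σ n).symm v = ((ent σ n).symm v.1, (ent σ n).symm v.2) := rfl

theorem ent2_smul (r : R) (v : (Fin n → R) × (Fin n → R)) :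
    ent2 σ n (r • v) = σ r • ent2 σ n v :=
  Prod.ext (ent_smul σ n r v.1) (ent_smul σ n r v.2)

theorem ent2_symm_smul (r : R) (v : (Fin n → R) × (Fin n → R)) :
    (ent2 σ n).symm (r • v) = σ.symm r • (ent2 σ n).symm v :=
  Prod.ext (ent_symm_smul σ n r v.1) (ent_symm_smul σ n r v.2)

/-- conjugation with the entrywise action -/
def cnj : MulAut (Aut R ((Fin n → R) × (Fin n → R))) where
  toFun A :=
    { toFun := fun x => ent2 σ n (A ((ent2 σ n).symm x))
      map_add' := fun x y => by simp only [map_add]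
      map_smul' := fun r x => by
        rw [ent2_symm_smul, map_smul, ent2_smul]
        simp
      invFun := fun x => ent2 σ n (A.symm ((ent2 σ n).symm x))
      left_inv := fun x => by simp
      right_inv := fun x => by simp }
  invFun A :=
    { toFun := fun x => (ent2 σ n).symm (A (ent2 σ n x))
      map_add' := fun x y => by simp only [map_add]
      map_smul' := fun r x => by
        rw [ent2_smul, map_smul, ent2_symm_smul]
        simp
      invFun := fun x => (ent2 σ n).symm (A.symm (ent2 σ n x))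
      left_inv := fun x => by simp
      right_inv := fun x => by simp }
  left_inv A := by
    apply LinearEquiv.ext
    intro x
    change (ent2 σ n).symm (ent2 σ n (A ((ent2 σ n).symm (ent2 σ n x)))) = A x
    simp
  right_inv A := by
    apply LinearEquiv.ext
    intro x
    change ent2 σ n ((ent2 σ n).symm (A (ent2 σ n ((ent2 σ n).symm x)))) = A x
    simp
  map_mul' A B := by
    apply LinearEquiv.ext
    intro x
    change ent2 σ n (A (B ((ent2 σ n).symm x))) =
      ent2 σ n (A ((ent2 σ n).symm (ent2 σ n (B ((ent2 σ n).symm x)))))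
    simp

theorem cnj_apply (A : Aut R ((Fin n → R) × (Fin n → R))) (x : (Fin n → R) × (Fin n → R)) :
    cnj σ n A x = ent2 σ n (A ((ent2 σ n).symm x)) := rfl

theorem common_per {X : Type} (f : X → X) (F : Set X) (hF : F.Finite)
    (h : ∀ x ∈ F, ∃ k : ℕ, 0 < k ∧ f^[k] x = x) : ∃ m : ℕ, 0 < m ∧ ∀ x ∈ F, f^[m] x = x := by
  induction F, hF using Set.Finite.induction_on with
  | empty => exact ⟨1, one_pos, fun x hx => absurd hx (Set.notMem_empty x)⟩
  | insert _ _ ih =>
    rename_i a s _ _
    obtain ⟨m, hm, hms⟩ := ih fun x hx => h x (Or.inr hx)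
    obtain ⟨n, hn, hna⟩ := h a (Or.inl rfl)
    refine ⟨m * n, Nat.mul_pos hm hn, fun x hx => ?_⟩
    rcases hx with rfl | hx
    · have h1 : Function.IsPeriodicPt f n x := hna
      exact h1.const_mul m
    · have h1 : Function.IsPeriodicPt f m x := hms x hx
      exact h1.mul_const n

theorem ent2_iter (k : ℕ) (x : (Fin n → R) × (Fin n → R)) :
    (ent2 σ n)^[k] x = (fun i => σ^[k] (x.1 i), fun i => σ^[k] (x.2 i)) := by
  induction k with
  | zero => rfl
  | succ k ih =>
    rw [Function.iterate_succ_apply', ih]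
    refine Prod.ext ?_ ?_
    · funext i
      simp only [Function.iterate_succ_apply']
      rfl
    · funext i
      simp only [Function.iterate_succ_apply']
      rfl

theorem cnj_pow (A : Aut R ((Fin n → R) × (Fin n → R))) (k : ℕ)
    (e : (Fin n → R) × (Fin n → R)) (he : (ent2 σ n).symm e = e) :
    ((cnj σ n ^ k) A) e = (ent2 σ n)^[k] (A e) := by
  induction k with
  | zero => rfl
  | succ k ih =>
    rw [pow_succ', MulAut.mul_apply, cnj_apply, he, ih, Function.iterate_succ_apply']

theorem cnj_orbits (hσ : FiniteOrbits σ) (A : Aut R ((Fin n → R) × (Fin n → R))) :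
    ∃ k : ℕ, 0 < k ∧ (cnj σ n ^ k) A = A := by
  classical
  let e1 : Fin n → (Fin n → R) × (Fin n → R) := fun j => (Pi.single j 1, 0)
  let e2 : Fin n → (Fin n → R) × (Fin n → R) := fun j => (0, Pi.single j 1)
  have hsing : ∀ j : Fin n, (ent σ n).symm (Pi.single j 1) = Pi.single j 1 := by
    intro j
    ext i
    rw [ent_symm_apply]
    by_cases h : i = j
    · subst h
      simp
    · simp [Pi.single_apply, h]
  have he1 : ∀ j, (ent2 σ n).symm (e1 j) = e1 j := by
    intro j
    rw [ent2_symm_apply]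
    refine Prod.ext (hsing j) ?_
    exact map_zero _
  have he2 : ∀ j, (ent2 σ n).symm (e2 j) = e2 j := by
    intro j
    rw [ent2_symm_apply]
    refine Prod.ext ?_ (hsing j)
    exact map_zero _
  let F : Set R := (⋃ j : Fin n, Set.range fun i : Fin n => (A (e1 j)).1 i) ∪
    (⋃ j : Fin n, Set.range fun i : Fin n => (A (e1 j)).2 i) ∪
    ((⋃ j : Fin n, Set.range fun i : Fin n => (A (e2 j)).1 i) ∪
    (⋃ j : Fin n, Set.range fun i : Fin n => (A (e2 j)).2 i))
  have hF : F.Finite := ((Set.finite_iUnion fun _ => Set.finite_range _).union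
    (Set.finite_iUnion fun _ => Set.finite_range _)).union
    ((Set.finite_iUnion fun _ => Set.finite_range _).union
    (Set.finite_iUnion fun _ => Set.finite_range _))
  obtain ⟨m, hm, hmF⟩ := common_per σ F hF fun r _ => hσ r
  refine ⟨m, hm, ?_⟩
  have hA1 : ∀ j, ((cnj σ n ^ m) A) (e1 j) = A (e1 j) := by
    intro j
    rw [cnj_pow σ n A m (e1 j) (he1 j), ent2_iter]
    refine Prod.ext ?_ ?_
    · funext i
      exact hmF _ (Or.inl (Or.inl (Set.mem_iUnion.2 ⟨j, i, rfl⟩)))
    · funext i
      exact hmF _ (Or.inl (Or.inr (Set.mem_iUnion.2 ⟨j, i, rfl⟩)))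
  have hA2 : ∀ j, ((cnj σ n ^ m) A) (e2 j) = A (e2 j) := by
    intro j
    rw [cnj_pow σ n A m (e2 j) (he2 j), ent2_iter]
    refine Prod.ext ?_ ?_
    · funext i
      exact hmF _ (Or.inr (Or.inl (Set.mem_iUnion.2 ⟨j, i, rfl⟩)))
    · funext i
      exact hmF _ (Or.inr (Or.inr (Set.mem_iUnion.2 ⟨j, i, rfl⟩)))
  apply LinearEquiv.toLinearMap_injective
  refine LinearMap.prod_ext ?_ ?_
  · refine LinearMap.pi_ext' fun j => LinearMap.ext_ring ?_
    exact hA1 j
  · refine LinearMap.pi_ext' fun j => LinearMap.ext_ring ?_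
    exact hA2 j

end entry

section main

variable {R M : Type} [Ring R] [AddCommGroup M] [Module R M]

/-- restriction to `T` -/
def res (T Z : Submodule R M) (x : M ≃ₗ[R] M) (hx : Good T Z x) : T ≃ₗ[R] T :=
  LinearEquiv.ofLinearMap (x.toLinearMap.restrict hx.fwd) (x.symm.toLinearMap.restrict hx.bwd)
    (by ext v; simp) (by ext v; simp)

theorem res_apply (T Z : Submodule R M) (x : M ≃ₗ[R] M) (hx : Good T Z x) (v : T) :
    res T Z x hx v = ⟨x v, hx.fwd _ v.2⟩ := rfl

/-- the twisted trick -/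
theorem twist {W Y T Z : Submodule R M} (hWY : IsCompl W Y) (σ : R ≃+* R) (p : M ≃+ M)
    (hp : ∀ (r : R) (v : M), p (r • v) = σ r • p v) (h1 : W ≤ T) (h2 : ∀ w ∈ W, p w ∈ T)
    {n : ℕ} (κ : (Fin n → R) →ₗ[R] T) (ι : T →ₗ[R] (Fin n → R)) (hκ : ∀ t, κ (ι t) = t) :
    ∃ q : Aut R ((Fin n → R) × (Fin n → R)), ∀ (x y : M ≃ₗ[R] M) (hx : Good T Z x)
      (hy : Good T Z y), SupportedOn W Y x → (∀ v, y (p v) = p (x v)) →
      ∀ v, q (ent σ n (emb κ ι hκ (res T Z x hx) ((ent σ n).symm v.1)), v.2) =
        (emb κ ι hκ (res T Z y hy) (q v).1, (q v).2) := by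
  obtain ⟨a, ha1, ha2, ha3, ha4⟩ := exists_proj hWY
  have haa : ∀ v, a (a v) = a v := fun v => ha3 _ (ha1 v)
  have hp' : ∀ (r : R) (v : M), p.symm (r • v) = σ.symm r • p.symm v := by
    intro r v
    apply p.injective
    rw [hp]
    simp
  have hpT : ∀ v, p (a v) ∈ T := fun v => h2 _ (ha1 v)
  have haT : ∀ v, a v ∈ T := fun v => h1 (ha1 v)
  let α : (Fin n → R) →ₗ[R] (Fin n → R) :=
    { toFun := fun v => ι ⟨p (a (κ ((ent σ n).symm v))), hpT _⟩
      map_add' := fun v w => by
        rw [← map_add]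
        congr 1
        ext
        simp only [map_add, Submodule.coe_add]
      map_smul' := fun r v => by
        rw [RingHom.id_apply, ← map_smul]
        congr 1
        ext
        simp only [ent_symm_smul, map_smul, Submodule.coe_smul, hp, RingEquiv.apply_symm_apply] }
  let β : (Fin n → R) →ₗ[R] (Fin n → R) :=
    { toFun := fun u => ent σ n (ι ⟨a (p.symm (κ u)), haT _⟩)
      map_add' := fun v w => by
        rw [← map_add, ← map_add]
        congr 2
        ext
        simp only [map_add, Submodule.coe_add]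
      map_smul' := fun r v => by
        have h3 : (⟨a (p.symm (κ (r • v))), haT _⟩ : T) =
            σ.symm r • ⟨a (p.symm (κ v)), haT _⟩ := by
          ext
          simp only [map_smul, Submodule.coe_smul, hp']
        rw [h3, map_smul, ent_smul, RingEquiv.apply_symm_apply, RingHom.id_apply] }
  have hα : ∀ v, α v = ι ⟨p (a (κ ((ent σ n).symm v))), hpT _⟩ := fun _ => rfl
  have hβ : ∀ v, β v = ent σ n (ι ⟨a (p.symm (κ v)), haT _⟩) := fun _ => rfl
  have hκα : ∀ v, (κ (α v) : M) = p (a (κ ((ent σ n).symm v))) := by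
    intro v
    rw [hα, hκ]
  have hκβ : ∀ v, (κ ((ent σ n).symm (β v)) : M) = a (p.symm (κ v)) := by
    intro v
    rw [hβ, AddEquiv.symm_apply_apply, hκ]
  have hβα : ∀ v, β (α v) = ent σ n (ι ⟨a (κ ((ent σ n).symm v)), haT _⟩) := by
    intro v
    rw [hβ]
    congr 2
    ext
    simp only [hκα, AddEquiv.symm_apply_apply, haa]
  have hαβ : ∀ v, α (β v) = ι ⟨p (a (p.symm (κ v))), hpT _⟩ := by
    intro v
    rw [hα]
    congr 1
    ext
    simp only [hκβ, haa]
  have i1 : ∀ v, α (β (α v)) = α v := by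
    intro v
    rw [hαβ, hα]
    congr 1
    ext
    simp only [hκ, AddEquiv.symm_apply_apply, haa]
  have i2 : ∀ v, β (α (β v)) = β v := by
    intro v
    rw [hβα, hβ]
    congr 2
    ext
    simp only [AddEquiv.symm_apply_apply, hκ, haa]
  refine ⟨swp α β i1 i2, ?_⟩
  intro x y hx hy hxs hxy v
  have hxY : ∀ u, x (u - a u) = u - a u := fun u => hxs.2 _ (ha2 u)
  have hxa : ∀ u, a (x u) = x (a u) := by
    intro u
    have h3 : x u = x (a u) + (u - a u) := by
      rw [← hxY u, ← map_add, add_sub_cancel]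
    rw [h3, map_add, ha3 _ (hxs.1 _ (ha1 u)), ha4 _ (ha2 u), add_zero]
  have hxs' : ∀ u, x u - x (a u) = u - a u := by
    intro u
    rw [← map_sub, hxY]
  have hκe : ∀ w, (κ (emb κ ι hκ (res T Z x hx) w) : M) = x (κ w) := by
    intro w
    rw [emb_apply]
    simp only [map_add, map_sub, hκ, sub_self, add_zero]
    rfl
  -- first component, `α`
  have c1 : α (ent σ n (emb κ ι hκ (res T Z x hx) ((ent σ n).symm v.1))) =
      emb κ ι hκ (res T Z y hy) (α v.1) := by
    rw [hα (v.1), emb_apply κ ι hκ (res T Z y hy), hκ, sub_self, add_zero, hα]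
    congr 1
    ext
    rw [res_apply]
    simp only [AddEquiv.symm_apply_apply, hκe, hxa, hxy]
  have c2 : emb κ ι hκ (res T Z y hy) (v.2 - α (β v.2)) = v.2 - α (β v.2) := by
    rw [emb_apply]
    have h3 : res T Z y hy (κ (v.2 - α (β v.2))) = κ (v.2 - α (β v.2)) := by
      ext
      rw [res_apply]
      simp only [map_sub, Submodule.coe_sub]
      rw [hαβ, hκ]
      have h4 : ((κ v.2 : M)) - p (a (p.symm (κ v.2))) =
          p (p.symm (κ v.2) - a (p.symm (κ v.2))) := by
        rw [map_sub, AddEquiv.apply_symm_apply]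
      have h5 : y (((κ v.2 : M)) - p (a (p.symm (κ v.2)))) =
          ((κ v.2 : M)) - p (a (p.symm (κ v.2))) := by
        rw [h4, hxy, hxY]
      rw [map_sub] at h5
      exact h5
    rw [h3]
    abel
  have c3 : ent σ n (emb κ ι hκ (res T Z x hx) ((ent σ n).symm v.1)) -
      β (α (ent σ n (emb κ ι hκ (res T Z x hx) ((ent σ n).symm v.1)))) =
      v.1 - β (α v.1) := by
    apply (ent σ n).symm.injective
    rw [map_sub, map_sub, hβα, hβα]
    simp only [AddEquiv.symm_apply_apply]
    rw [emb_apply]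
    have h3 : (⟨a (κ (ι (res T Z x hx (κ ((ent σ n).symm v.1))) +
        ((ent σ n).symm v.1 - ι (κ ((ent σ n).symm v.1))))), haT _⟩ : T) =
        res T Z x hx (κ ((ent σ n).symm v.1)) - κ ((ent σ n).symm v.1) +
          ⟨a (κ ((ent σ n).symm v.1)), haT _⟩ := by
      ext
      simp only [map_add, map_sub, hκ, sub_self, add_zero, Submodule.coe_add, Submodule.coe_sub]
      rw [res_apply]
      simp only [hxa]
      have h4 := hxs' (κ ((ent σ n).symm v.1) : M)
      have h5 : x (a (κ ((ent σ n).symm v.1) : M)) = x (κ ((ent σ n).symm v.1) : M) -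
          ((κ ((ent σ n).symm v.1) : M) - a (κ ((ent σ n).symm v.1) : M)) := by
        rw [← h4]
        abel
      rw [h5]
      abel
    rw [h3]
    simp only [map_add, map_sub]
    abel
  rw [swp_apply, swp_apply]
  refine Prod.ext ?_ ?_
  · change α _ + (v.2 - α (β v.2)) = emb κ ι hκ (res T Z y hy) (α v.1 + (v.2 - α (β v.2)))
    rw [map_add, c1, c2]
  · change β v.2 + (_ - β (α _)) = β v.2 + (v.1 - β (α v.1))
    rw [c3]

end main

end Pool.Agent.K7.H41.FL
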